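import Mathlib

set_option autoImplicit false

namespace Pool.Agent.TH157.Cub

open MvPolynomial

universe u

/-- `X : F = 0` is a smooth cubic surface in `ℙ³` over the field `k`: the form `F` is homogeneous
of degree three and, over the algebraic closure of `k`, at every point of `X` some partial
derivative of `F` is nonzero. -/
def IsSmoothCubicSurface {k : Type u} [Field k] (F : MvPolynomial (Fin 4) k) : Prop :=
  F.IsHomogeneous 3 ∧ ∀ v : Fin 4 → AlgebraicClosure k, v ≠ 0 → aeval v F = 0 →
    ∃ i, aeval v (pderiv i F) ≠ 0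

/-- `φ = (φ₀ : φ₁ : φ₂ : φ₃)` is a non-constant morphism `ℙ¹ → X` defined over `k`, where
`X : F = 0` is a surface in `ℙ³`: the `φᵢ` are forms of the same degree `e ≥ 1` in two variables
over `k` without common zero over the algebraic closure, and `F(φ₀, φ₁, φ₂, φ₃) = 0`. -/
def IsRationalCurve {k : Type u} [Field k] (F : MvPolynomial (Fin 4) k) (e : ℕ)
    (φ : Fin 4 → MvPolynomial (Fin 2) k) : Prop :=
  1 ≤ e ∧ (∀ i, (φ i).IsHomogeneous e) ∧
    (∀ t : Fin 2 → AlgebraicClosure k, t ≠ 0 → ∃ i, aeval t (φ i) ≠ 0) ∧ bind₁ φ F = 0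

/-- The point `x` of `ℙ³(k)` lies on the image of `φ : ℙ¹ → ℙ³`. -/
def PassesThrough {k : Type u} [Field k] (φ : Fin 4 → MvPolynomial (Fin 2) k)
    (x : Fin 4 → k) : Prop :=
  ∃ (t : Fin 2 → AlgebraicClosure k) (c : AlgebraicClosure k), t ≠ 0 ∧ c ≠ 0 ∧
    ∀ i, aeval t (φ i) = c * algebraMap k (AlgebraicClosure k) (x i)

/-- A homogeneous polynomial at a scaled point. -/
theorem aeval_smul_of_homog {k : Type u} [Field k] {S : Type*} [CommRing S] [Algebra k S]
    {σ : Type*} {n : ℕ} {F : MvPolynomial σ k} (hF : F.IsHomogeneous n) (g : S) (b : σ → S) :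
    aeval (fun i => g * b i) F = g ^ n * aeval b F := by
  rw [aeval_def, aeval_def, eval₂_eq, eval₂_eq, Finset.mul_sum]
  refine Finset.sum_congr rfl fun d hd => ?_
  have hdeg : ∑ i ∈ d.support, d i = n := by
    have := hF (mem_support_iff.mp hd)
    rw [← this]
    simp [Finsupp.weight_apply, Finsupp.sum]
  simp only [mul_pow, Finset.prod_mul_distrib, Finset.prod_pow_eq_pow_sum, hdeg]
  ring

/-- The homogenization of degree `e` of a polynomial in one variable. -/
noncomputable def homog {k : Type u} [Field k] (e : ℕ) (b : Polynomial k) :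
    MvPolynomial (Fin 2) k :=
  ∑ m ∈ Finset.range (e + 1), C (b.coeff m) * (X 0 ^ m * X 1 ^ (e - m))

theorem homog_isHomogeneous {k : Type u} [Field k] (e : ℕ) (b : Polynomial k) :
    (homog e b).IsHomogeneous e := by
  refine IsHomogeneous.sum _ _ _ fun m hm => ?_
  have h1 : (X 0 ^ m * X 1 ^ (e - m) : MvPolynomial (Fin 2) k).IsHomogeneous (m + (e - m)) :=
    (isHomogeneous_X_pow (R := k) (0 : Fin 2) m).mul (isHomogeneous_X_pow (R := k) (1 : Fin 2) _)
  have h2 := (isHomogeneous_C (Fin 2) (b.coeff m)).mul h1
  have h3 : 0 + (m + (e - m)) = e := by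
    have := Finset.mem_range.mp hm
    omega
  rwa [h3] at h2

theorem aeval_homog {k : Type u} [Field k] (e : ℕ) (b : Polynomial k)
    (t : Fin 2 → AlgebraicClosure k) :
    aeval t (homog e b) = ∑ m ∈ Finset.range (e + 1),
      algebraMap k _ (b.coeff m) * (t 0 ^ m * t 1 ^ (e - m)) := by
  simp [homog, map_sum, aeval_C]

theorem aeval_homog_of_ne {k : Type u} [Field k] (e : ℕ) (b : Polynomial k)
    (hb : b.natDegree ≤ e) (t : Fin 2 → AlgebraicClosure k) (ht : t 1 ≠ 0) :
    aeval t (homog e b) = t 1 ^ e * Polynomial.aeval (t 0 / t 1) b := by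
  rw [aeval_homog, Polynomial.aeval_eq_sum_range' (Nat.lt_succ_of_le hb), Finset.mul_sum]
  refine Finset.sum_congr rfl fun m hm => ?_
  have hm' : m ≤ e := Nat.lt_succ_iff.mp (Finset.mem_range.mp hm)
  rw [Algebra.smul_def, div_pow]
  have : t 1 ^ e = t 1 ^ (e - m) * t 1 ^ m := by rw [← pow_add, Nat.sub_add_cancel hm']
  rw [this]
  field_simp

theorem aeval_homog_of_eq {k : Type u} [Field k] (e : ℕ) (b : Polynomial k)
    (t : Fin 2 → AlgebraicClosure k) (ht : t 1 = 0) :
    aeval t (homog e b) = algebraMap k _ (b.coeff e) * t 0 ^ e := by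
  rw [aeval_homog, Finset.sum_eq_single e]
  · simp
  · intro m hm hme
    have : e - m ≠ 0 := by
      have := Finset.mem_range.mp hm
      omega
    simp [ht, this]
  · simp

/-- From a polynomial solution to a morphism from the projective line. -/
theorem exists_curve {k : Type u} [Field k] {n : ℕ} (F : MvPolynomial (Fin 4) k)
    (hF : F.IsHomogeneous n) (x : Fin 4 → k) (a : Fin 4 → Polynomial k) (ha : aeval a F = 0)
    (s c : AlgebraicClosure k) (hc : c ≠ 0)
    (hs : ∀ i, Polynomial.aeval s (a i) = c * algebraMap k _ (x i))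
    (hx : x ≠ 0)
    (hn : ∃ i j, Polynomial.C (x i) * a j ≠ Polynomial.C (x j) * a i) :
    ∃ e φ, IsRationalCurve F e φ ∧ PassesThrough φ x := by
  classical
  -- the gcd
  obtain ⟨g, hg⟩ := (IsPrincipalIdealRing.principal (Ideal.span (Set.range a))).principal
  have hmem : ∀ i, ∃ b, a i = g * b := by
    intro i
    have h1 : a i ∈ Ideal.span (Set.range a) := Ideal.subset_span ⟨i, rfl⟩
    rw [hg] at h1
    obtain ⟨b, hb⟩ := Ideal.mem_span_singleton'.mp h1
    exact ⟨b, by rw [← hb, mul_comm]⟩
  choose b hb using hmem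
  have hg2 : g ∈ Ideal.span (Set.range a) := by
    rw [hg]
    exact Ideal.mem_span_singleton_self g
  obtain ⟨q, hq⟩ := (Ideal.mem_span_range_iff_exists_fun).mp hg2
  obtain ⟨i0, hi0⟩ : ∃ i, x i ≠ 0 := by
    by_contra h
    push Not at h
    exact hx (funext h)
  have hai0 : Polynomial.aeval s (a i0) ≠ 0 := by
    rw [hs i0]
    exact mul_ne_zero hc (by simpa using hi0)
  have hg0 : g ≠ 0 := by
    intro h
    apply hai0
    rw [hb i0, h, zero_mul, map_zero]
  have hgs : Polynomial.aeval s g ≠ 0 := by
    intro h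
    apply hai0
    rw [hb i0, map_mul, h, zero_mul]
  have hq1 : ∑ i, q i * b i = 1 := by
    apply mul_left_cancel₀ hg0
    rw [Finset.mul_sum, mul_one]
    conv_rhs => rw [← hq]
    refine Finset.sum_congr rfl fun i _ => ?_
    rw [hb i]
    ring
  have hFb : aeval b F = 0 := by
    have h1 : aeval (fun i => g * b i) F = 0 := by
      have : (fun i => g * b i) = a := funext fun i => (hb i).symm
      rw [this, ha]
    rw [aeval_smul_of_homog hF] at h1
    exact (mul_eq_zero.mp h1).resolve_left (pow_ne_zero _ hg0)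
  -- degree
  set e : ℕ := Finset.univ.sup fun i => (b i).natDegree with he
  have hdeg : ∀ i, (b i).natDegree ≤ e := fun i =>
    Finset.le_sup (f := fun i => (b i).natDegree) (Finset.mem_univ i)
  obtain ⟨i1, -, hi1⟩ := Finset.exists_mem_eq_sup (Finset.univ : Finset (Fin 4))
    Finset.univ_nonempty fun i => (b i).natDegree
  have hi1' : (b i1).natDegree = e := hi1.symm
  have hbs : ∀ i, Polynomial.aeval s (b i) = (c / Polynomial.aeval s g) * algebraMap k _ (x i) := by
    intro i
    have := hs i
    rw [hb i, map_mul] at this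
    field_simp
    rw [← this]
    ring
  have he1 : 1 ≤ e := by
    by_contra hlt
    have he0 : e = 0 := by omega
    have hconst : ∀ i, b i = Polynomial.C ((b i).coeff 0) := fun i =>
      Polynomial.eq_C_of_natDegree_eq_zero (by have := hdeg i; omega)
    have hval : ∀ i, algebraMap k (AlgebraicClosure k) ((b i).coeff 0) =
        (c / Polynomial.aeval s g) * algebraMap k _ (x i) := by
      intro i
      rw [← hbs i]
      conv_rhs => rw [hconst i]
      simp
    obtain ⟨i, j, hij⟩ := hn
    apply hij
    rw [hb i, hb j, hconst i, hconst j]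
    have : x i * (b j).coeff 0 = x j * (b i).coeff 0 := by
      apply (algebraMap k (AlgebraicClosure k)).injective
      rw [map_mul, map_mul, hval i, hval j]
      ring
    calc Polynomial.C (x i) * (g * Polynomial.C ((b j).coeff 0))
        = g * Polynomial.C (x i * (b j).coeff 0) := by rw [Polynomial.C_mul]; ring
      _ = g * Polynomial.C (x j * (b i).coeff 0) := by rw [this]
      _ = Polynomial.C (x j) * (g * Polynomial.C ((b i).coeff 0)) := by
          rw [Polynomial.C_mul]; ring
  have hb1 : b i1 ≠ 0 := by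
    intro h
    rw [h, Polynomial.natDegree_zero] at hi1'
    omega
  have hlead : (b i1).coeff e ≠ 0 := by
    rw [← hi1']
    exact Polynomial.leadingCoeff_ne_zero.mpr hb1
  refine ⟨e, fun i => homog e (b i), ⟨he1, fun i => homog_isHomogeneous e _, ?_, ?_⟩, ?_⟩
  · -- no common zero
    intro t ht
    by_contra hcon
    push Not at hcon
    by_cases h1 : t 1 = 0
    · have h2 := hcon i1
      rw [aeval_homog_of_eq e _ t h1] at h2
      have h0 : t 0 ≠ 0 := by
        intro h0
        apply ht
        funext j
        fin_cases j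
        · exact h0
        · exact h1
      rcases mul_eq_zero.mp h2 with h3 | h3
      · exact hlead ((algebraMap k (AlgebraicClosure k)).injective (by rw [h3, map_zero]))
      · exact h0 (pow_eq_zero_iff (by omega) |>.mp h3)
    · have h2 : ∀ i, Polynomial.aeval (t 0 / t 1) (b i) = 0 := by
        intro i
        have := hcon i
        rw [aeval_homog_of_ne e _ (hdeg i) t h1] at this
        exact (mul_eq_zero.mp this).resolve_left (pow_ne_zero _ h1)
      have h3 := congrArg (Polynomial.aeval (t 0 / t 1)) hq1
      rw [map_sum, map_one] at h3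
      simp only [map_mul, h2, mul_zero, Finset.sum_const_zero] at h3
      exact zero_ne_one h3
  · -- the equation
    have key : ∀ t : Fin 2 → AlgebraicClosure k, t 1 ≠ 0 →
        aeval t (bind₁ (fun i => homog e (b i)) F) = 0 := by
      intro t ht
      rw [aeval_bind₁]
      have h1 : (fun i => aeval t (homog e (b i))) =
          fun i => t 1 ^ e * Polynomial.aeval (t 0 / t 1) (b i) :=
        funext fun i => aeval_homog_of_ne e _ (hdeg i) t ht
      rw [h1, aeval_smul_of_homog hF]
      have h2 : aeval (fun i => Polynomial.aeval (t 0 / t 1) (b i)) F =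
          Polynomial.aeval (t 0 / t 1) (aeval b F) := by
        rw [← AlgHom.comp_apply, comp_aeval]
      rw [h2, hFb, map_zero, mul_zero]
    have h2 : (MvPolynomial.map (algebraMap k (AlgebraicClosure k)))
        (X 1 * bind₁ (fun i => homog e (b i)) F) = 0 := by
      apply MvPolynomial.funext
      intro t
      rw [eval_map, ← aeval_def, map_mul, aeval_X, map_zero]
      by_cases h1 : t 1 = 0
      · rw [h1, zero_mul]
      · rw [key t h1, mul_zero]
    have h3 : X 1 * bind₁ (fun i => homog e (b i)) F = 0 := by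
      apply MvPolynomial.map_injective _ (algebraMap k (AlgebraicClosure k)).injective
      rw [h2, map_zero]
    exact (mul_eq_zero.mp h3).resolve_left (X_ne_zero 1)
  · -- passes through
    refine ⟨![s, 1], c / Polynomial.aeval s g, ?_, div_ne_zero hc hgs, ?_⟩
    · intro h
      have := congrFun h 1
      simp at this
    · intro i
      rw [aeval_homog_of_ne e _ (hdeg i) _ (by simp)]
      simp [hbs i]

end Pool.Agent.TH157.Cub
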