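import Mathlib

set_option autoImplicit false

namespace Pool.Agent.TH157.Cub

open Polynomial

/-- The coefficients of a cubic form in four variables `w, x, y, z` for which `(1 : 0 : 0 : 0)` is
a point with tangent plane `z = 0`. -/
structure Par (R : Type*) where
  q1 : R
  q2 : R
  q3 : R
  m1 : R
  m2 : R
  m3 : R
  c1 : R
  c2 : R
  c3 : R
  c4 : R
  e1 : R
  e2 : R
  e3 : R
  e4 : R
  e5 : R
  e6 : R

/-- Change of rings. -/
def Par.map {R S : Type*} [CommRing R] [CommRing S] (p : Par R) (f : R →+* S) : Par S :=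
  ⟨f p.q1, f p.q2, f p.q3, f p.m1, f p.m2, f p.m3, f p.c1, f p.c2, f p.c3, f p.c4,
    f p.e1, f p.e2, f p.e3, f p.e4, f p.e5, f p.e6⟩

/-- The cubic form. -/
def cub {R : Type*} [CommRing R] (p : Par R) (w x y z : R) : R :=
  w ^ 2 * z + w * (p.q1 * x ^ 2 + p.q2 * x * y + p.q3 * y ^ 2)
    + w * z * (p.m1 * x + p.m2 * y + p.m3 * z)
    + (p.c1 * x ^ 3 + p.c2 * x ^ 2 * y + p.c3 * x * y ^ 2 + p.c4 * y ^ 3)
    + z * (p.e1 * x ^ 2 + p.e2 * x * y + p.e3 * y ^ 2) + z ^ 2 * (p.e4 * x + p.e5 * y)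
    + p.e6 * z ^ 3

/-- A non-constant rational curve on the cubic surface through `(1 : 0 : 0 : 0)`. -/
def Sol {K : Type*} [Field K] (p : Par K) : Prop :=
  ∃ (a0 a1 a2 a3 : K[X]) (s : AlgebraicClosure K), cub (p.map C) a0 a1 a2 a3 = 0 ∧
    (a1 ≠ 0 ∨ a2 ≠ 0 ∨ a3 ≠ 0) ∧ aeval s a1 = 0 ∧ aeval s a2 = 0 ∧ aeval s a3 = 0 ∧
    aeval s a0 ≠ 0

variable {K : Type*} [Field K]

/-- A line through the point in the tangent plane. -/
theorem case0 (p : Par K) (x y : K) (hxy : ¬ (x = 0 ∧ y = 0))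
    (hQ : p.q1 * x ^ 2 + p.q2 * x * y + p.q3 * y ^ 2 = 0)
    (hC : p.c1 * x ^ 3 + p.c2 * x ^ 2 * y + p.c3 * x * y ^ 2 + p.c4 * y ^ 3 = 0) : Sol p := by
  refine ⟨1, C x * X, C y * X, 0, 0, ?_, ?_, by simp, by simp, by simp, by simp⟩
  · have h1 : (C (p.q1 * x ^ 2 + p.q2 * x * y + p.q3 * y ^ 2) : K[X]) = 0 := by rw [hQ, C_0]
    have h2 : (C (p.c1 * x ^ 3 + p.c2 * x ^ 2 * y + p.c3 * x * y ^ 2 + p.c4 * y ^ 3) : K[X]) = 0 := by
      rw [hC, C_0]
    simp only [C_add, C_mul, C_pow] at h1 h2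
    simp only [cub, Par.map]
    linear_combination X ^ 2 * h1 + X ^ 3 * h2
  · by_cases hx : x = 0
    · right; left
      have hy : y ≠ 0 := fun h => hxy ⟨hx, h⟩
      simpa using hy
    · left
      simpa using hx

/-- The tangent plane section is a rational cubic or contains a rational curve through the
point. -/
theorem case1 (p : Par K) (hq : p.q1 ≠ 0) (s : AlgebraicClosure K)
    (h0 : aeval s (C p.q1 * X ^ 2 + C p.q2 * X + C p.q3 : K[X]) = 0)
    (h1 : aeval s (C p.c1 * X ^ 3 + C p.c2 * X ^ 2 + C p.c3 * X + C p.c4 : K[X]) ≠ 0) :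
    Sol p := by
  refine ⟨-(C p.c1 * X ^ 3 + C p.c2 * X ^ 2 + C p.c3 * X + C p.c4),
    X * (C p.q1 * X ^ 2 + C p.q2 * X + C p.q3), C p.q1 * X ^ 2 + C p.q2 * X + C p.q3, 0, s,
    ?_, ?_, ?_, h0, by simp, ?_⟩
  · simp only [cub, Par.map]
    ring
  · right; left
    intro h
    have := congrArg (fun f => coeff f 2) h
    simp [coeff_X, coeff_C] at this
    exact hq this
  · rw [map_mul, h0, mul_zero]
  · rw [map_neg]
    exact neg_ne_zero.mpr h1

/-- The involution attached to the point. -/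
theorem cub_invol {R : Type*} [CommRing R] (p : Par R) (w x y z : R) :
    cub p (-(p.q1 * x ^ 2 + p.q2 * x * y + p.q3 * y ^ 2 + z * (p.m1 * x + p.m2 * y + p.m3 * z))
      - w * z) (x * z) (y * z) (z ^ 2) = z ^ 3 * cub p w x y z := by
  simp only [cub]
  ring

/-- The curve obtained from a conic in a plane through a line of the surface by the involution
attached to the point. -/
theorem caseA_aux (p : Par K) (al be la x1 y1 x2 y2 : K)
    (hc1 : p.c1 = p.q1 * al) (hc2 : p.c2 = p.q1 * be + p.q2 * al)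
    (hc3 : p.c3 = p.q2 * be + p.q3 * al) (hc4 : p.c4 = p.q3 * be)
    (g11 g12 g22 : K) (hg11 : g11 = la * p.q1 + p.e1 - al * p.m1 + al ^ 2)
    (hg12 : g12 = la * p.q2 + p.e2 - (al * p.m2 + be * p.m1) + 2 * al * be)
    (hg22 : g22 = la * p.q3 + p.e3 - be * p.m2 + be ^ 2)
    (hG1 : g11 * x1 ^ 2 + g12 * x1 * y1 + g22 * y1 ^ 2 = 0)
    (hG2 : g11 * x2 ^ 2 + g12 * x2 * y2 + g22 * y2 ^ 2 = 0)
    (hka : 2 * g11 * x1 * x2 + g12 * (x1 * y2 + x2 * y1) + 2 * g22 * y1 * y2 ≠ 0)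
    (hQ2 : p.q1 * x2 ^ 2 + p.q2 * x2 * y2 + p.q3 * y2 ^ 2 ≠ 0) : Sol p := by
  obtain ⟨ka, hkadef⟩ : ∃ ka, ka = 2 * g11 * x1 * x2 + g12 * (x1 * y2 + x2 * y1)
    + 2 * g22 * y1 * y2 := ⟨_, rfl⟩
  rw [← hkadef] at hka
  obtain ⟨mu1, hmu1⟩ : ∃ mu1, mu1 = la * (p.m1 * x1 + p.m2 * y1 - 2 * (al * x1 + be * y1))
    + p.e4 * x1 + p.e5 * y1 - p.m3 * (al * x1 + be * y1) := ⟨_, rfl⟩
  obtain ⟨mu2, hmu2⟩ : ∃ mu2, mu2 = la * (p.m1 * x2 + p.m2 * y2 - 2 * (al * x2 + be * y2))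
    + p.e4 * x2 + p.e5 * y2 - p.m3 * (al * x2 + be * y2) := ⟨_, rfl⟩
  obtain ⟨mu3, hmu3⟩ : ∃ mu3, mu3 = la ^ 2 + la * p.m3 + p.e6 := ⟨_, rfl⟩
  -- everything in `K[X]`
  have Hc1 := congrArg (C : K → K[X]) hc1
  have Hc2 := congrArg (C : K → K[X]) hc2
  have Hc3 := congrArg (C : K → K[X]) hc3
  have Hc4 := congrArg (C : K → K[X]) hc4
  have Hg11 := congrArg (C : K → K[X]) hg11
  have Hg12 := congrArg (C : K → K[X]) hg12
  have Hg22 := congrArg (C : K → K[X]) hg22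
  have HG1 := congrArg (C : K → K[X]) hG1
  have HG2 := congrArg (C : K → K[X]) hG2
  have Hka := congrArg (C : K → K[X]) hkadef
  have Hmu1 := congrArg (C : K → K[X]) hmu1
  have Hmu2 := congrArg (C : K → K[X]) hmu2
  have Hmu3 := congrArg (C : K → K[X]) hmu3
  simp only [C_add, C_sub, C_mul, C_pow, C_0, map_ofNat] at Hc1 Hc2 Hc3 Hc4 Hg11 Hg12 Hg22 HG1 HG2 Hka Hmu1 Hmu2 Hmu3
  set A : K[X] := -(C mu2 * X + C mu3 * X ^ 2) with hA
  set B : K[X] := C ka + C mu1 * X with hB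
  set Z : K[X] := X * B with hZ
  set x : K[X] := A * C x1 + B * C x2 with hx
  set y : K[X] := A * C y1 + B * C y2 with hy
  have hZ0 : Z ≠ 0 := by
    apply mul_ne_zero X_ne_zero
    intro h
    have := congrArg (fun f => coeff f 0) h
    simp [hB] at this
    exact hka this
  have hG : C g11 * x ^ 2 + C g12 * x * y + C g22 * y ^ 2 = C ka * A * B := by
    rw [Hka, hx, hy]
    linear_combination A ^ 2 * HG1 + B ^ 2 * HG2
  have hcub : cub (p.map C) (C la * Z - (C al * x + C be * y)) x y Z =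
      Z * (C g11 * x ^ 2 + C g12 * x * y + C g22 * y ^ 2 + Z * (C mu1 * A + C mu2 * B)
        + Z ^ 2 * C mu3) := by
    simp only [cub, Par.map]
    rw [Hc1, Hc2, Hc3, Hc4, Hg11, Hg12, Hg22, Hmu1, Hmu2, Hmu3, hx, hy]
    ring
  have hzero : cub (p.map C) (C la * Z - (C al * x + C be * y)) x y Z = 0 := by
    rw [hcub, hG]
    have : C ka * A * B + Z * (C mu1 * A + C mu2 * B) + Z ^ 2 * C mu3 = 0 := by
      rw [hZ, hB, hA]
      ring
    rw [this, mul_zero]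
  refine ⟨-((p.map C).q1 * x ^ 2 + (p.map C).q2 * x * y + (p.map C).q3 * y ^ 2 +
      Z * ((p.map C).m1 * x + (p.map C).m2 * y + (p.map C).m3 * Z))
      - (C la * Z - (C al * x + C be * y)) * Z, x * Z, y * Z, Z ^ 2, 0, ?_, ?_, ?_, ?_, ?_, ?_⟩
  · rw [cub_invol, hzero, mul_zero]
  · right; right
    exact pow_ne_zero 2 hZ0
  · simp [hZ]
  · simp [hZ]
  · simp [hZ]
  · have h1 : aeval (0 : AlgebraicClosure K) Z = 0 := by simp [hZ]
    have h2 : aeval (0 : AlgebraicClosure K) x = algebraMap K _ (ka * x2) := by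
      simp [hx, hA, hB]
    have h3 : aeval (0 : AlgebraicClosure K) y = algebraMap K _ (ka * y2) := by
      simp [hy, hA, hB]
    have h4 : algebraMap K (AlgebraicClosure K) (-(ka ^ 2 *
        (p.q1 * x2 ^ 2 + p.q2 * x2 * y2 + p.q3 * y2 ^ 2))) ≠ 0 := by
      rw [Ne, map_eq_zero]
      exact neg_ne_zero.mpr (mul_ne_zero (pow_ne_zero 2 hka) hQ2)
    have h5 : aeval (0 : AlgebraicClosure K) (-((p.map C).q1 * x ^ 2 + (p.map C).q2 * x * y
        + (p.map C).q3 * y ^ 2 + Z * ((p.map C).m1 * x + (p.map C).m2 * y + (p.map C).m3 * Z))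
        - (C la * Z - (C al * x + C be * y)) * Z) = algebraMap K (AlgebraicClosure K) (-(ka ^ 2 *
        (p.q1 * x2 ^ 2 + p.q2 * x2 * y2 + p.q3 * y2 ^ 2))) := by
      simp only [map_neg, map_sub, map_add, map_mul, map_pow, h1, h2, h3, Par.map, aeval_C]
      ring
    rw [h5]
    exact h4

/-- The gradient of the cubic form at points of the plane `z = 0` is nonzero. -/
def SmoothPlane (p : Par K) : Prop :=
  ∀ w x y : AlgebraicClosure K, ¬ (x = 0 ∧ y = 0) → ∀ p' : Par (AlgebraicClosure K),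
    p' = p.map (algebraMap K (AlgebraicClosure K)) → cub p' w x y 0 = 0 →
    ¬ (p'.q1 * x ^ 2 + p'.q2 * x * y + p'.q3 * y ^ 2 = 0 ∧
      w * (2 * p'.q1 * x + p'.q2 * y) + (3 * p'.c1 * x ^ 2 + 2 * p'.c2 * x * y + p'.c3 * y ^ 2) = 0 ∧
      w * (p'.q2 * x + 2 * p'.q3 * y) + (p'.c2 * x ^ 2 + 2 * p'.c3 * x * y + 3 * p'.c4 * y ^ 2) = 0 ∧
      w ^ 2 + w * (p'.m1 * x + p'.m2 * y) + (p'.e1 * x ^ 2 + p'.e2 * x * y + p'.e3 * y ^ 2) = 0)

theorem coeffs_eq {a b c d a' b' c' d' : K}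
    (h : (C a * X ^ 3 + C b * X ^ 2 + C c * X + C d : K[X]) =
      C a' * X ^ 3 + C b' * X ^ 2 + C c' * X + C d') : a = a' ∧ b = b' ∧ c = c' ∧ d = d' := by
  refine ⟨?_, ?_, ?_, ?_⟩
  · have := congrArg (fun f => coeff f 3) h
    simpa [coeff_X, coeff_C] using this
  · have := congrArg (fun f => coeff f 2) h
    simpa [coeff_X, coeff_C] using this
  · have := congrArg (fun f => coeff f 1) h
    simpa [coeff_X, coeff_C] using this
  · have := congrArg (fun f => coeff f 0) h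
    simpa [coeff_X, coeff_C] using this

/-- A singular point. -/
theorem sing_point {L : Type*} [Field L] (p : Par L) (al be la s : L)
    (hQs : p.q1 * s ^ 2 + p.q2 * s + p.q3 = 0)
    (hc1 : p.c1 = p.q1 * al) (hc2 : p.c2 = p.q1 * be + p.q2 * al)
    (hc3 : p.c3 = p.q2 * be + p.q3 * al) (hc4 : p.c4 = p.q3 * be)
    (k1 : la * p.q1 + p.e1 - al * p.m1 + al ^ 2 = 0)
    (k2 : la * p.q2 + p.e2 - (al * p.m2 + be * p.m1) + 2 * al * be = 0)
    (k3 : la * p.q3 + p.e3 - be * p.m2 + be ^ 2 = 0) :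
    cub p (-(al * s + be)) s 1 0 = 0 ∧
    (p.q1 * s ^ 2 + p.q2 * s * 1 + p.q3 * 1 ^ 2 = 0 ∧
      -(al * s + be) * (2 * p.q1 * s + p.q2 * 1) +
        (3 * p.c1 * s ^ 2 + 2 * p.c2 * s * 1 + p.c3 * 1 ^ 2) = 0 ∧
      -(al * s + be) * (p.q2 * s + 2 * p.q3 * 1) +
        (p.c2 * s ^ 2 + 2 * p.c3 * s * 1 + 3 * p.c4 * 1 ^ 2) = 0 ∧
      (-(al * s + be)) ^ 2 + -(al * s + be) * (p.m1 * s + p.m2 * 1) +
        (p.e1 * s ^ 2 + p.e2 * s * 1 + p.e3 * 1 ^ 2) = 0) := by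
  refine ⟨?_, ?_, ?_, ?_, ?_⟩
  · simp only [cub]
    rw [hc1, hc2, hc3, hc4]
    ring
  · linear_combination hQs
  · rw [hc1, hc2, hc3]
    linear_combination al * hQs
  · rw [hc2, hc3, hc4]
    linear_combination be * hQs
  · linear_combination s ^ 2 * k1 + s * k2 + k3 - la * hQs

/-- The case in which the tangent plane section is not a cone with vertex the point. -/
theorem caseA [Finite K] (p : Par K) (hq : p.q1 ≠ 0) (hs : SmoothPlane p) : Sol p := by
  classical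
  by_cases h0 : ∃ x y : K, ¬ (x = 0 ∧ y = 0) ∧
      p.q1 * x ^ 2 + p.q2 * x * y + p.q3 * y ^ 2 = 0 ∧
      p.c1 * x ^ 3 + p.c2 * x ^ 2 * y + p.c3 * x * y ^ 2 + p.c4 * y ^ 3 = 0
  · obtain ⟨x, y, hxy, hQ, hC⟩ := h0
    exact case0 p x y hxy hQ hC
  set q0 : K[X] := C p.q1 * X ^ 2 + C p.q2 * X + C p.q3 with hq0
  set c0 : K[X] := C p.c1 * X ^ 3 + C p.c2 * X ^ 2 + C p.c3 * X + C p.c4 with hc0
  by_cases h1 : ∃ s : AlgebraicClosure K, aeval s q0 = 0 ∧ aeval s c0 ≠ 0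
  · obtain ⟨s, hs0, hs1⟩ := h1
    exact case1 p hq s hs0 hs1
  push Not at h0 h1
  have hdeg : q0.natDegree = 2 := by
    rw [hq0]
    exact natDegree_quadratic hq
  have hq0ne : q0 ≠ 0 := by
    intro h
    rw [h, natDegree_zero] at hdeg
    omega
  obtain ⟨s, hs0⟩ : ∃ s : AlgebraicClosure K, aeval s q0 = 0 :=
    IsAlgClosed.exists_aeval_eq_zero _ _ (by
      rw [degree_eq_natDegree hq0ne, hdeg]
      norm_num)
  have hs1 := h1 s hs0
  have hnoroot : ∀ r : K, q0.eval r ≠ 0 := by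
    intro r hr
    have hr2 : aeval (algebraMap K (AlgebraicClosure K) r) q0 = 0 := by
      rw [aeval_algebraMap_apply_eq_algebraMap_eval, hr, map_zero]
    have hr3 := h1 _ hr2
    rw [aeval_algebraMap_apply_eq_algebraMap_eval, map_eq_zero] at hr3
    have e1 : p.q1 * r ^ 2 + p.q2 * r * 1 + p.q3 * 1 ^ 2 = 0 := by
      simp only [hq0, eval_add, eval_mul, eval_C, eval_pow, eval_X] at hr
      linear_combination hr
    have e2 : p.c1 * r ^ 3 + p.c2 * r ^ 2 * 1 + p.c3 * r * 1 ^ 2 + p.c4 * 1 ^ 3 = 0 := by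
      simp only [hc0, eval_add, eval_mul, eval_C, eval_pow, eval_X] at hr3
      linear_combination hr3
    exact h0 r 1 (fun _ => one_ne_zero) e1 e2
  have hirr : Irreducible q0 := by
    rw [irreducible_iff_roots_eq_zero_of_degree_le_three (by omega) (by omega)]
    rw [Multiset.eq_zero_iff_forall_notMem]
    intro r hr
    exact hnoroot r ((mem_roots hq0ne).mp hr)
  have hdvd : q0 ∣ c0 := by
    by_contra hnd
    obtain ⟨u, v, huv⟩ := (hirr.coprime_iff_not_dvd).mpr hnd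
    have := congrArg (aeval s) huv
    simp only [map_add, map_mul, hs0, hs1, mul_zero, add_zero, map_one] at this
    exact zero_ne_one this
  obtain ⟨l, hl⟩ := hdvd
  have hldeg : l.natDegree ≤ 1 := by
    by_cases hl0 : l = 0
    · simp [hl0]
    · have h3 : c0.natDegree ≤ 3 := by
        rw [hc0]
        exact natDegree_cubic_le
      rw [hl, natDegree_mul hq0ne hl0, hdeg] at h3
      omega
  obtain ⟨al, be, hlab⟩ := exists_eq_X_add_C_of_natDegree_le_one hldeg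
  rw [hlab] at hl
  have hprod : c0 = C (p.q1 * al) * X ^ 3 + C (p.q1 * be + p.q2 * al) * X ^ 2 +
      C (p.q2 * be + p.q3 * al) * X + C (p.q3 * be) := by
    rw [hl, hq0]
    simp only [C_add, C_mul]
    ring
  obtain ⟨hc1, hc2, hc3, hc4⟩ := coeffs_eq hprod
  -- the form `Q` is anisotropic over `K`
  have hQne : ∀ x y : K, ¬ (x = 0 ∧ y = 0) →
      p.q1 * x ^ 2 + p.q2 * x * y + p.q3 * y ^ 2 ≠ 0 := by
    intro x y hxy hQ
    refine h0 x y (fun hx hy => hxy ⟨hx, hy⟩) hQ ?_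
    rw [hc1, hc2, hc3, hc4]
    linear_combination (al * x + be * y) * hQ
  -- pigeonhole
  have := Fintype.ofFinite K
  let vx : Option K → K := fun o => o.elim 1 id
  let vy : Option K → K := fun o => o.elim 0 fun _ => 1
  have hvne : ∀ o, ¬ (vx o = 0 ∧ vy o = 0) := by
    intro o
    cases o <;> simp [vx, vy]
  let E : K → K → K := fun x y => p.e1 * x ^ 2 + p.e2 * x * y + p.e3 * y ^ 2 -
    (al * x + be * y) * (p.m1 * x + p.m2 * y) + (al * x + be * y) ^ 2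
  let f : Option K → K := fun o =>
    -(E (vx o) (vy o)) / (p.q1 * vx o ^ 2 + p.q2 * vx o * vy o + p.q3 * vy o ^ 2)
  obtain ⟨o1, o2, hne, hf⟩ := Fintype.exists_ne_map_eq_of_card_lt f (by
    rw [Fintype.card_option]
    omega)
  obtain ⟨la, hla⟩ : ∃ la, la = f o1 := ⟨_, rfl⟩
  have hla2 : la = f o2 := by rw [hla, hf]
  have hdet : vx o1 * vy o2 - vx o2 * vy o1 ≠ 0 := by
    cases o1 with
    | none =>
      cases o2 with
      | none => exact absurd rfl hne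
      | some t => simp [vx, vy]
    | some r =>
      cases o2 with
      | none => simp [vx, vy]
      | some t =>
        simp only [vx, vy, Option.elim_some, id, mul_one]
        exact sub_ne_zero.mpr fun h => hne (by rw [h])
  obtain ⟨x1, hx1⟩ : ∃ x, x = vx o1 := ⟨_, rfl⟩
  obtain ⟨y1, hy1⟩ : ∃ x, x = vy o1 := ⟨_, rfl⟩
  obtain ⟨x2, hx2⟩ : ∃ x, x = vx o2 := ⟨_, rfl⟩
  obtain ⟨y2, hy2⟩ : ∃ x, x = vy o2 := ⟨_, rfl⟩
  have hQ1 := hQne _ _ (hvne o1)
  have hQ2 := hQne _ _ (hvne o2)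
  simp only [f] at hla hla2
  rw [eq_div_iff hQ1] at hla
  rw [eq_div_iff hQ2] at hla2
  rw [← hx1, ← hy1] at hQ1 hla hdet
  rw [← hx2, ← hy2] at hQ2 hla2 hdet
  simp only [E] at hla hla2
  refine caseA_aux p al be la x1 y1 x2 y2 hc1 hc2 hc3 hc4 _ _ _ rfl rfl rfl
    (by linear_combination hla) (by linear_combination hla2) ?_ hQ2
  intro hka
  set g11 := la * p.q1 + p.e1 - al * p.m1 + al ^ 2 with hg11
  set g12 := la * p.q2 + p.e2 - (al * p.m2 + be * p.m1) + 2 * al * be with hg12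
  set g22 := la * p.q3 + p.e3 - be * p.m2 + be ^ 2 with hg22
  have hG1 : g11 * x1 ^ 2 + g12 * x1 * y1 + g22 * y1 ^ 2 = 0 := by
    rw [hg11, hg12, hg22]
    linear_combination hla
  have hG2 : g11 * x2 ^ 2 + g12 * x2 * y2 + g22 * y2 ^ 2 = 0 := by
    rw [hg11, hg12, hg22]
    linear_combination hla2
  have k1 : g11 = 0 := by
    have : (x1 * y2 - x2 * y1) ^ 2 * g11 = 0 := by
      linear_combination y2 ^ 2 * hG1 - y1 * y2 * hka + y1 ^ 2 * hG2
    exact (mul_eq_zero.mp this).resolve_left (pow_ne_zero 2 hdet)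
  have k2 : g12 = 0 := by
    have : (x1 * y2 - x2 * y1) ^ 2 * g12 = 0 := by
      linear_combination -2 * x2 * y2 * hG1 + (x1 * y2 + x2 * y1) * hka - 2 * x1 * y1 * hG2
    exact (mul_eq_zero.mp this).resolve_left (pow_ne_zero 2 hdet)
  have k3 : g22 = 0 := by
    have : (x1 * y2 - x2 * y1) ^ 2 * g22 = 0 := by
      linear_combination x2 ^ 2 * hG1 - x1 * x2 * hka + x1 ^ 2 * hG2
    exact (mul_eq_zero.mp this).resolve_left (pow_ne_zero 2 hdet)
  -- the singular point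
  obtain ⟨p', hp'⟩ : ∃ p', p' = p.map (algebraMap K (AlgebraicClosure K)) := ⟨_, rfl⟩
  obtain ⟨j, hj⟩ : ∃ j, j = algebraMap K (AlgebraicClosure K) := ⟨_, rfl⟩
  have hQs : p'.q1 * s ^ 2 + p'.q2 * s + p'.q3 = 0 := by
    have h2 := hs0
    simp only [hq0, map_add, map_mul, aeval_C, aeval_X, map_pow] at h2
    rw [hp']
    simp only [Par.map]
    exact h2
  rw [← hj] at hp'
  have hpp : p' = p.map j := hp'
  have jc1 := congrArg j hc1
  have jc2 := congrArg j hc2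
  have jc3 := congrArg j hc3
  have jc4 := congrArg j hc4
  have jk1 := congrArg j (hg11.symm.trans k1)
  have jk2 := congrArg j (hg12.symm.trans k2)
  have jk3 := congrArg j (hg22.symm.trans k3)
  simp only [map_add, map_sub, map_mul, map_pow, map_zero, map_ofNat] at jc1 jc2 jc3 jc4 jk1 jk2 jk3
  have key := sing_point p' (j al) (j be) (j la) s hQs (by rw [hpp]; exact jc1)
    (by rw [hpp]; exact jc2) (by rw [hpp]; exact jc3) (by rw [hpp]; exact jc4)
    (by rw [hpp]; exact jk1) (by rw [hpp]; exact jk2) (by rw [hpp]; exact jk3)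
  exact hs (-(j al * s + j be)) s 1 (fun h => one_ne_zero h.2) p' (by rw [hpp, hj]) key.1 key.2

end Pool.Agent.TH157.Cub
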