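import Mathlib
import Pool.Agent.TH157.Cub.CaseA

set_option autoImplicit false

namespace Pool.Agent.TH157.Cub

open Polynomial

/-- The polar form: the coefficient of `ε` in `F(u + ε v)`. -/
def dcub {R : Type*} [CommRing R] (p : Par R) (w x y z w' x' y' z' : R) : R :=
  w' * (2 * w * z + (p.q1 * x ^ 2 + p.q2 * x * y + p.q3 * y ^ 2) +
      z * (p.m1 * x + p.m2 * y + p.m3 * z)) +
  x' * (w * (2 * p.q1 * x + p.q2 * y) + w * z * p.m1 +
      (3 * p.c1 * x ^ 2 + 2 * p.c2 * x * y + p.c3 * y ^ 2) + z * (2 * p.e1 * x + p.e2 * y) +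
      z ^ 2 * p.e4) +
  y' * (w * (p.q2 * x + 2 * p.q3 * y) + w * z * p.m2 +
      (p.c2 * x ^ 2 + 2 * p.c3 * x * y + 3 * p.c4 * y ^ 2) + z * (p.e2 * x + 2 * p.e3 * y) +
      z ^ 2 * p.e5) +
  z' * (w ^ 2 + w * (p.m1 * x + p.m2 * y + 2 * p.m3 * z) +
      (p.e1 * x ^ 2 + p.e2 * x * y + p.e3 * y ^ 2) + 2 * z * (p.e4 * x + p.e5 * y) +
      3 * p.e6 * z ^ 2)

theorem cub_comb {R : Type*} [CommRing R] (p : Par R) (a b w x y z w' x' y' z' : R) :
    cub p (a * w + b * w') (a * x + b * x') (a * y + b * y') (a * z + b * z') =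
      a ^ 3 * cub p w x y z + a ^ 2 * b * dcub p w x y z w' x' y' z' +
      a * b ^ 2 * dcub p w' x' y' z' w x y z + b ^ 3 * cub p w' x' y' z' := by
  simp only [cub, dcub]
  ring

/-- The third point on a line. -/
theorem cub_third {R : Type*} [CommRing R] (p : Par R) (e w x y z w' x' y' z' : R)
    (h : cub p w x y z = 0) (h' : cub p w' x' y' z' = 0) (b1 b2 : R)
    (hb1 : b1 = dcub p w x y z w' x' y' z') (hb2 : b2 = dcub p w' x' y' z' w x y z) :
    cub p (e * (b2 * w - b1 * w')) (e * (b2 * x - b1 * x')) (e * (b2 * y - b1 * y'))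
      (e * (b2 * z - b1 * z')) = 0 := by
  have h1 : ∀ a b : R, e * (b2 * a - b1 * b) = (e * b2) * a + (-(e * b1)) * b := by
    intro a b
    ring
  rw [h1, h1, h1, h1, cub_comb, h, h', ← hb1, ← hb2]
  ring

/-- The quadratic form `h`. -/
def hform {R : Type*} [CommRing R] (p : Par R) (Di x y : R) : R :=
  (Di * (p.e4 ^ 2 - p.m3 * p.e4 * p.m1 + p.e6 * p.m1 ^ 2) + p.e1) * x ^ 2 +
  (Di * (2 * p.e4 * p.e5 - p.m3 * (p.e4 * p.m2 + p.e5 * p.m1) + 2 * p.e6 * p.m1 * p.m2) + p.e2)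
    * x * y +
  (Di * (p.e5 ^ 2 - p.m3 * p.e5 * p.m2 + p.e6 * p.m2 ^ 2) + p.e3) * y ^ 2

/-- The binary cubic form. -/
def cform {R : Type*} [CommRing R] (p : Par R) (x y : R) : R :=
  p.c1 * x ^ 3 + p.c2 * x ^ 2 * y + p.c3 * x * y ^ 2 + p.c4 * y ^ 3

theorem hform_smul {R : Type*} [CommRing R] (p : Par R) (Di a x y : R) :
    hform p Di (a * x) (a * y) = a ^ 2 * hform p Di x y := by
  simp only [hform]; ring

theorem cform_smul {R : Type*} [CommRing R] (p : Par R) (a x y : R) :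
    cform p (a * x) (a * y) = a ^ 3 * cform p x y := by
  simp only [cform]; ring

/-- The decomposition of the cubic form attached to a root `o` of `T² + m₃ T + e₆`. -/
theorem cub_decomp {R : Type*} [CommRing R] (p : Par R) (h1 : p.q1 = 0) (h2 : p.q2 = 0)
    (h3 : p.q3 = 0) (o Di : R) (ho : o ^ 2 + p.m3 * o + p.e6 = 0)
    (hD : (p.m3 ^ 2 - 4 * p.e6) * Di = 1) (w x y z : R) :
    cub p w x y z =
      z * (w - o * z + (2 * o + p.m3) * (o * (p.m1 * x + p.m2 * y) + (p.e4 * x + p.e5 * y)) * Di)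
        * (w - (-p.m3 - o) * z - (2 * o + p.m3) *
          ((-p.m3 - o) * (p.m1 * x + p.m2 * y) + (p.e4 * x + p.e5 * y)) * Di)
      + z * hform p Di x y + cform p x y := by
  have hE1 : (2 * o + p.m3) ^ 2 * Di - 1 = 0 := by
    linear_combination 4 * Di * ho + hD
  simp only [cub, hform, cform, h1, h2, h3]
  linear_combination z * (z ^ 2 - Di * (p.m1 * x + p.m2 * y) ^ 2) * ho +
    z * (-(p.m1 * x + p.m2 * y) * w - z * (p.e4 * x + p.e5 * y) +
      Di * (o * (p.m1 * x + p.m2 * y) + (p.e4 * x + p.e5 * y)) *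
        ((-p.m3 - o) * (p.m1 * x + p.m2 * y) + (p.e4 * x + p.e5 * y))) * hE1

/-- The `w`-coordinate of the point. -/
def wA {R : Type*} [CommRing R] (p : Par R) (Di o x y z : R) : R :=
  o * z - (2 * o + p.m3) * (o * (p.m1 * x + p.m2 * y) + (p.e4 * x + p.e5 * y)) * Di

/-- Points of the tangent plane section. -/
theorem cub_point {R : Type*} [CommRing R] (p : Par R) (h1 : p.q1 = 0) (h2 : p.q2 = 0)
    (h3 : p.q3 = 0) (o Di : R) (ho : o ^ 2 + p.m3 * o + p.e6 = 0)
    (hD : (p.m3 ^ 2 - 4 * p.e6) * Di = 1) (t : R) :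
    cub p (wA p Di o (-(hform p Di 1 t)) (-(hform p Di 1 t) * t) (cform p 1 t))
      (-(hform p Di 1 t)) (-(hform p Di 1 t) * t) (cform p 1 t) = 0 := by
  obtain ⟨H, hH⟩ : ∃ H, H = hform p Di 1 t := ⟨_, rfl⟩
  obtain ⟨G, hG⟩ : ∃ G, G = cform p 1 t := ⟨_, rfl⟩
  rw [← hH, ← hG, cub_decomp p h1 h2 h3 o Di ho hD]
  have e1 : hform p Di (-H) (-H * t) = H ^ 2 * H := by
    have := hform_smul p Di (-H) 1 t
    rw [mul_one] at this
    rw [this, ← hH]
    ring
  have e2 : cform p (-H) (-H * t) = -H ^ 3 * G := by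
    have := cform_smul p (-H) 1 t
    rw [mul_one] at this
    rw [this, ← hG]
    ring
  rw [e1, e2]
  simp only [wA]
  ring

/-! ### Naturality -/

section Nat

variable {R S : Type*} [CommRing R] [CommRing S] (f : R →+* S) (p : Par R)

theorem map_cub (w x y z : R) : f (cub p w x y z) = cub (p.map f) (f w) (f x) (f y) (f z) := by
  simp [cub, Par.map]

theorem map_dcub (w x y z w' x' y' z' : R) : f (dcub p w x y z w' x' y' z') =
    dcub (p.map f) (f w) (f x) (f y) (f z) (f w') (f x') (f y') (f z') := by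
  simp [dcub, Par.map, map_ofNat f]

theorem map_hform (Di x y : R) : f (hform p Di x y) = hform (p.map f) (f Di) (f x) (f y) := by
  simp [hform, Par.map, map_ofNat f]

theorem map_cform (x y : R) : f (cform p x y) = cform (p.map f) (f x) (f y) := by
  simp [cform, Par.map, map_ofNat f]

theorem map_wA (Di o x y z : R) :
    f (wA p Di o x y z) = wA (p.map f) (f Di) (f o) (f x) (f y) (f z) := by
  simp [wA, Par.map, map_ofNat f]

theorem Par.map_map {T : Type*} [CommRing T] (g : S →+* T) :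
    (p.map f).map g = p.map (g.comp f) := rfl

end Nat

/-- Functoriality of the quadratic algebra. -/
def qmap {S T : Type*} [CommRing S] [CommRing T] (f : S →+* T) (a b : S) :
    QuadraticAlgebra S a b →+* QuadraticAlgebra T (f a) (f b) where
  toFun z := ⟨f z.re, f z.im⟩
  map_one' := by ext <;> simp [QuadraticAlgebra.re_one, QuadraticAlgebra.im_one]
  map_mul' x y := by ext <;> simp
  map_zero' := by ext <;> simp
  map_add' x y := by ext <;> simp

/-- The polar form at two points with the same projection. -/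
theorem dcub_same {R : Type*} [CommRing R] (p : Par R) (h1 : p.q1 = 0) (h2 : p.q2 = 0)
    (h3 : p.q3 = 0) (w w' x y z : R) (h0 : cub p w x y z = 0)
    (hsum : w + w' = -(p.m1 * x + p.m2 * y + p.m3 * z)) :
    dcub p w x y z w' x y z = -z * (w - w') ^ 2 := by
  have e1 : dcub p w x y z w' x y z = 3 * cub p w x y z +
      (w' - w) * (2 * w * z + z * (p.m1 * x + p.m2 * y + p.m3 * z)) := by
    simp only [dcub, cub, h1, h2, h3]
    ring
  rw [e1, h0]
  linear_combination z * (w' - w) * hsum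

theorem wA_add {R : Type*} [CommRing R] (p : Par R) (o Di : R)
    (ho : o ^ 2 + p.m3 * o + p.e6 = 0)
    (hD : (p.m3 ^ 2 - 4 * p.e6) * Di = 1) (x y z : R) :
    wA p Di o x y z + wA p Di (-p.m3 - o) x y z = -(p.m1 * x + p.m2 * y + p.m3 * z) := by
  have hE1 : (2 * o + p.m3) ^ 2 * Di - 1 = 0 := by
    linear_combination 4 * Di * ho + hD
  simp only [wA]
  linear_combination -(p.m1 * x + p.m2 * y) * hE1

theorem wA_sub {R : Type*} [CommRing R] (p : Par R) (o Di : R) (x y z : R) :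
    wA p Di o x y z - wA p Di (-p.m3 - o) x y z =
      (2 * o + p.m3) * (z - Di * (2 * (p.e4 * x + p.e5 * y) - p.m3 * (p.m1 * x + p.m2 * y))) := by
  simp only [wA]
  ring

/-! ### The curve -/

section Curve

variable {R : Type*} [CommRing R] (A : Par R) (Di o t : R)

/-- `x`-coordinate of a point of the tangent plane section. -/
def px : R := -(hform A Di 1 t)
/-- `y`-coordinate of a point of the tangent plane section. -/
def py : R := -(hform A Di 1 t) * t
/-- `z`-coordinate of a point of the tangent plane section. -/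
def pz : R := cform A 1 t
/-- `w`-coordinate of a point of the tangent plane section. -/
def pw : R := wA A Di o (px A Di t) (py A Di t) (pz A t)

/-- Polar form of two points. -/
def bb (o' t' : R) : R :=
  dcub A (pw A Di o t) (px A Di t) (py A Di t) (pz A t)
    (pw A Di o' t') (px A Di t') (py A Di t') (pz A t')

/-- Coordinates of the third point on the line through two conjugate points. -/
def Ew (s : R) : R := (2 * o + A.m3) *
  (bb A Di (-A.m3 - o) (s * (-A.m3 - o)) o (s * o) * pw A Di o (s * o) -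
    bb A Di o (s * o) (-A.m3 - o) (s * (-A.m3 - o)) * pw A Di (-A.m3 - o) (s * (-A.m3 - o)))
/-- Coordinates of the third point on the line through two conjugate points. -/
def Ex (s : R) : R := (2 * o + A.m3) *
  (bb A Di (-A.m3 - o) (s * (-A.m3 - o)) o (s * o) * px A Di (s * o) -
    bb A Di o (s * o) (-A.m3 - o) (s * (-A.m3 - o)) * px A Di (s * (-A.m3 - o)))
/-- Coordinates of the third point on the line through two conjugate points. -/
def Ey (s : R) : R := (2 * o + A.m3) *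
  (bb A Di (-A.m3 - o) (s * (-A.m3 - o)) o (s * o) * py A Di (s * o) -
    bb A Di o (s * o) (-A.m3 - o) (s * (-A.m3 - o)) * py A Di (s * (-A.m3 - o)))
/-- Coordinates of the third point on the line through two conjugate points. -/
def Ez (s : R) : R := (2 * o + A.m3) *
  (bb A Di (-A.m3 - o) (s * (-A.m3 - o)) o (s * o) * pz A (s * o) -
    bb A Di o (s * o) (-A.m3 - o) (s * (-A.m3 - o)) * pz A (s * (-A.m3 - o)))

theorem conj_root (ho : o ^ 2 + A.m3 * o + A.e6 = 0) :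
    (-A.m3 - o) ^ 2 + A.m3 * (-A.m3 - o) + A.e6 = 0 := by
  linear_combination ho

theorem cub_pt (h1 : A.q1 = 0) (h2 : A.q2 = 0) (h3 : A.q3 = 0)
    (ho : o ^ 2 + A.m3 * o + A.e6 = 0) (hD : (A.m3 ^ 2 - 4 * A.e6) * Di = 1) :
    cub A (pw A Di o t) (px A Di t) (py A Di t) (pz A t) = 0 :=
  cub_point A h1 h2 h3 o Di ho hD t

theorem cub_E (h1 : A.q1 = 0) (h2 : A.q2 = 0) (h3 : A.q3 = 0)
    (ho : o ^ 2 + A.m3 * o + A.e6 = 0) (hD : (A.m3 ^ 2 - 4 * A.e6) * Di = 1) (s : R) :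
    cub A (Ew A Di o s) (Ex A Di o s) (Ey A Di o s) (Ez A Di o s) = 0 :=
  cub_third A _ _ _ _ _ _ _ _ _ (cub_pt A Di o _ h1 h2 h3 ho hD)
    (cub_pt A Di _ _ h1 h2 h3 (conj_root A o ho) hD) _ _ rfl rfl

/-- The value at the parameter `0`. -/
theorem E_zero (h1 : A.q1 = 0) (h2 : A.q2 = 0) (h3 : A.q3 = 0)
    (ho : o ^ 2 + A.m3 * o + A.e6 = 0) (hD : (A.m3 ^ 2 - 4 * A.e6) * Di = 1) :
    bb A Di o 0 (-A.m3 - o) 0 = -A.c1 * (A.m3 ^ 2 - 4 * A.e6) *
      (A.c1 + Di * hform A Di 1 0 * (2 * A.e4 - A.m3 * A.m1)) ^ 2 ∧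
    bb A Di (-A.m3 - o) 0 o 0 = -A.c1 * (A.m3 ^ 2 - 4 * A.e6) *
      (A.c1 + Di * hform A Di 1 0 * (2 * A.e4 - A.m3 * A.m1)) ^ 2 ∧
    Ew A Di o 0 = -A.c1 * (A.m3 ^ 2 - 4 * A.e6) ^ 2 *
      (A.c1 + Di * hform A Di 1 0 * (2 * A.e4 - A.m3 * A.m1)) ^ 3 ∧
    Ex A Di o 0 = 0 ∧ Ey A Di o 0 = 0 ∧ Ez A Di o 0 = 0 := by
  have hs := wA_add A o Di ho hD (px A Di 0) (py A Di 0) (pz A 0)
  have hd := wA_sub A o Di (px A Di 0) (py A Di 0) (pz A 0)
  have hz : pz A 0 = A.c1 := by simp [pz, cform]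
  have hy : py A Di 0 = 0 := by simp [py]
  have hx : px A Di 0 = -(hform A Di 1 0) := rfl
  have hη : (2 * o + A.m3) ^ 2 = A.m3 ^ 2 - 4 * A.e6 := by linear_combination 4 * ho
  have hd' : pw A Di o 0 - pw A Di (-A.m3 - o) 0 = (2 * o + A.m3) *
      (A.c1 + Di * hform A Di 1 0 * (2 * A.e4 - A.m3 * A.m1)) := by
    have : pw A Di o 0 - pw A Di (-A.m3 - o) 0 = _ := hd
    rw [this, hz, hy, hx]
    ring
  have hb1 : bb A Di o 0 (-A.m3 - o) 0 = -A.c1 * (A.m3 ^ 2 - 4 * A.e6) *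
      (A.c1 + Di * hform A Di 1 0 * (2 * A.e4 - A.m3 * A.m1)) ^ 2 := by
    have e := dcub_same A h1 h2 h3 (pw A Di o 0) (pw A Di (-A.m3 - o) 0) (px A Di 0) (py A Di 0)
      (pz A 0) (cub_pt A Di o 0 h1 h2 h3 ho hD) hs
    rw [bb, e, hd', hz]
    linear_combination -A.c1 * (A.c1 + Di * hform A Di 1 0 * (2 * A.e4 - A.m3 * A.m1)) ^ 2 * hη
  have hb2 : bb A Di (-A.m3 - o) 0 o 0 = -A.c1 * (A.m3 ^ 2 - 4 * A.e6) *
      (A.c1 + Di * hform A Di 1 0 * (2 * A.e4 - A.m3 * A.m1)) ^ 2 := by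
    have e := dcub_same A h1 h2 h3 (pw A Di (-A.m3 - o) 0) (pw A Di o 0) (px A Di 0) (py A Di 0)
      (pz A 0) (cub_pt A Di _ 0 h1 h2 h3 (conj_root A o ho) hD) (by rw [add_comm]; exact hs)
    have e2 : (pw A Di (-A.m3 - o) 0 - pw A Di o 0) ^ 2 =
      (pw A Di o 0 - pw A Di (-A.m3 - o) 0) ^ 2 := by ring
    rw [bb, e, e2, hd', hz]
    linear_combination -A.c1 * (A.c1 + Di * hform A Di 1 0 * (2 * A.e4 - A.m3 * A.m1)) ^ 2 * hη
  refine ⟨hb1, hb2, ?_, ?_, ?_, ?_⟩
  · rw [Ew, zero_mul, zero_mul, hb1, hb2, ← mul_sub, hd', ← hη]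
    ring
  · rw [Ex, zero_mul, zero_mul, hb1, hb2]
    ring
  · rw [Ey, zero_mul, zero_mul, hb1, hb2]
    ring
  · rw [Ez, zero_mul, zero_mul, hb1, hb2]
    ring

end Curve

section CurveNat

variable {R S : Type*} [CommRing R] [CommRing S] (f : R →+* S) (A : Par R) (Di o t : R)

theorem map_px : f (px A Di t) = px (A.map f) (f Di) (f t) := by
  simp [px, map_hform]

theorem map_py : f (py A Di t) = py (A.map f) (f Di) (f t) := by
  simp [py, map_hform]

theorem map_pz : f (pz A t) = pz (A.map f) (f t) := by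
  simp [pz, map_cform]

theorem map_pw : f (pw A Di o t) = pw (A.map f) (f Di) (f o) (f t) := by
  simp [pw, map_wA, map_px, map_py, map_pz]

theorem map_bb (o' t' : R) :
    f (bb A Di o t o' t') = bb (A.map f) (f Di) (f o) (f t) (f o') (f t') := by
  simp [bb, map_dcub, map_px, map_py, map_pz, map_pw]

theorem map_m3 : f A.m3 = (A.map f).m3 := rfl

theorem map_Ew (s : R) : f (Ew A Di o s) = Ew (A.map f) (f Di) (f o) (f s) := by
  simp [Ew, map_bb, map_px, map_py, map_pz, map_pw, map_m3, map_ofNat f]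

theorem map_Ex (s : R) : f (Ex A Di o s) = Ex (A.map f) (f Di) (f o) (f s) := by
  simp [Ex, map_bb, map_px, map_py, map_pz, map_pw, map_m3, map_ofNat f]

theorem map_Ey (s : R) : f (Ey A Di o s) = Ey (A.map f) (f Di) (f o) (f s) := by
  simp [Ey, map_bb, map_px, map_py, map_pz, map_pw, map_m3, map_ofNat f]

theorem map_Ez (s : R) : f (Ez A Di o s) = Ez (A.map f) (f Di) (f o) (f s) := by
  simp [Ez, map_bb, map_px, map_py, map_pz, map_pw, map_m3, map_ofNat f]

end CurveNat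

/-- The construction is anti-symmetric twice. -/
theorem E_conj {R : Type*} [CommRing R] (A : Par R) (Di o s : R) :
    Ew A Di (-A.m3 - o) s = Ew A Di o s ∧ Ex A Di (-A.m3 - o) s = Ex A Di o s ∧
    Ey A Di (-A.m3 - o) s = Ey A Di o s ∧ Ez A Di (-A.m3 - o) s = Ez A Di o s := by
  have e : -A.m3 - (-A.m3 - o) = o := by ring
  refine ⟨?_, ?_, ?_, ?_⟩
  · simp only [Ew, e]; ring
  · simp only [Ex, e]; ring
  · simp only [Ey, e]; ring
  · simp only [Ez, e]; ring

end Pool.Agent.TH157.Cub
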