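import Mathlib
import Pool.Agent.TH157.Cub.CoreB

set_option autoImplicit false

namespace Pool.Agent.TH157.Cub

open Polynomial

section Quad

variable {S : Type*} [CommRing S] (a b : S)

theorem omega_rel : (⟨0, 1⟩ : QuadraticAlgebra S a b) ^ 2 =
    algebraMap S (QuadraticAlgebra S a b) a +
      algebraMap S (QuadraticAlgebra S a b) b * ⟨0, 1⟩ := by
  rw [sq]
  ext <;> simp

theorem star_algebraMap (x : S) : star (algebraMap S (QuadraticAlgebra S a b) x) =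
    algebraMap S (QuadraticAlgebra S a b) x := by
  ext <;> simp

theorem star_omega : star (⟨0, 1⟩ : QuadraticAlgebra S a b) =
    algebraMap S (QuadraticAlgebra S a b) b - ⟨0, 1⟩ := by
  ext <;> simp

theorem im_eq_zero [IsDomain S] (hD : b ^ 2 + 4 * a ≠ 0) (z : QuadraticAlgebra S a b) (hz : star z = z) :
    z.im = 0 := by
  have h1 : z.re + b * z.im = z.re := by
    have := congrArg QuadraticAlgebra.re hz
    simpa using this
  have h2 : -z.im = z.im := by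
    have := congrArg QuadraticAlgebra.im hz
    simpa using this
  have h3 : (b ^ 2 + 4 * a) * z.im = 0 := by
    linear_combination b * h1 - 2 * a * h2
  exact (mul_eq_zero.mp h3).resolve_left hD

theorem eq_algebraMap_re (z : QuadraticAlgebra S a b) (hz : z.im = 0) :
    z = algebraMap S (QuadraticAlgebra S a b) z.re := by
  ext
  · simp
  · simpa using hz

end Quad

/-- The abstract algebra behind the non-constancy of the curve. -/
theorem nonconst_aux {R : Type*} [CommRing R] (m e Di o s B1 B2 H1 H2 : R)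
    (ho : o ^ 2 + m * o + e = 0) (hD : (m ^ 2 - 4 * e) * Di = 1)
    (gx : (2 * o + m) * (B2 * (-H1) - B1 * (-H2)) = 0)
    (gy : (2 * o + m) * (B2 * (-H1 * (s * o)) - B1 * (-H2 * (s * (-m - o)))) = 0) :
    s * (B2 * H1) = 0 := by
  have hη : (2 * o + m) ^ 2 * Di = 1 := by
    linear_combination 4 * Di * ho + hD
  have k1 : B2 * H1 - B1 * H2 = 0 := by
    linear_combination -(2 * o + m) * Di * gx - (B2 * H1 - B1 * H2) * hη
  have k2 : B2 * H1 * (s * o) - B1 * H2 * (s * (-m - o)) = 0 := by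
    linear_combination -(2 * o + m) * Di * gy -
      (B2 * H1 * (s * o) - B1 * H2 * (s * (-m - o))) * hη
  have k3 : (B2 * H1) * s * (2 * o + m) = 0 := by
    linear_combination k2 - s * (-m - o) * k1
  linear_combination (2 * o + m) * Di * k3 - (B2 * H1) * s * hη

theorem E_nonconst {R : Type*} [CommRing R] (A : Par R) (Di o s : R)
    (ho : o ^ 2 + A.m3 * o + A.e6 = 0) (hD : (A.m3 ^ 2 - 4 * A.e6) * Di = 1)
    (hx : Ex A Di o s = 0) (hy : Ey A Di o s = 0) :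
    ∃ r : R, s * r = 0 ∧ ∀ (S : Type _) [CommRing S] (f : R →+* S), f s = 0 →
      f r = bb (A.map f) (f Di) (-(A.map f).m3 - f o) 0 (f o) 0 *
        hform (A.map f) (f Di) 1 0 := by
  rw [Ex, px, px] at hx
  rw [Ey, py, py] at hy
  refine ⟨_, nonconst_aux A.m3 A.e6 Di o s _ _ _ _ ho hD hx hy, ?_⟩
  intro S _ f hf
  simp only [map_mul, map_sub, map_neg, map_one, hf, zero_mul, map_m3, map_bb, map_hform]

theorem mul_X_cancel {K : Type*} [Field K] (a b : K[X]) (r : QuadraticAlgebra K[X] a b)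
    (h : algebraMap K[X] (QuadraticAlgebra K[X] a b) X * r = 0) : r = 0 := by
  have e1 := congrArg QuadraticAlgebra.re h
  have e2 := congrArg QuadraticAlgebra.im h
  simp at e1 e2
  ext1
  · simpa using e1
  · simpa using e2

variable {K : Type*} [Field K]

/-- The main construction: the point is the vertex of the tangent cone, and there is a line
through the point whose two further intersection points are distinct and whose
tangent plane sections are not cones. -/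
theorem coreB (p : Par K) (h1 : p.q1 = 0) (h2 : p.q2 = 0) (h3 : p.q3 = 0) (hc : p.c1 ≠ 0)
    (hΔ : p.m3 ^ 2 - 4 * p.e6 ≠ 0) (hh : hform p (p.m3 ^ 2 - 4 * p.e6)⁻¹ 1 0 ≠ 0)
    (hnc : ∀ x : K, (p.m3 + p.m1 * x) ^ 2 -
      4 * (p.c1 * x ^ 3 + p.e1 * x ^ 2 + p.e4 * x + p.e6) ≠ 0) : Sol p := by
  classical
  obtain ⟨Δ, hΔdef⟩ : ∃ Δ, Δ = p.m3 ^ 2 - 4 * p.e6 := ⟨_, rfl⟩
  rw [← hΔdef] at hΔ hh
  obtain ⟨a, ha⟩ : ∃ a : K[X], a = -C p.e6 := ⟨_, rfl⟩
  obtain ⟨b, hb⟩ : ∃ b : K[X], b = -C p.m3 := ⟨_, rfl⟩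
  obtain ⟨j, hj⟩ : ∃ j : K[X] →+* QuadraticAlgebra K[X] a b,
    j = algebraMap K[X] (QuadraticAlgebra K[X] a b) := ⟨_, rfl⟩
  obtain ⟨o, hodef⟩ : ∃ o : QuadraticAlgebra K[X] a b, o = ⟨0, 1⟩ := ⟨_, rfl⟩
  obtain ⟨A, hA⟩ : ∃ A, A = (p.map C).map j := ⟨_, rfl⟩
  obtain ⟨Di, hDi⟩ : ∃ Di, Di = j (C Δ⁻¹) := ⟨_, rfl⟩
  have hAm3 : A.m3 = j (C p.m3) := by rw [hA]; rfl
  have hAe6 : A.e6 = j (C p.e6) := by rw [hA]; rfl
  have ja : j a = -j (C p.e6) := by
    have := congrArg j ha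
    rwa [map_neg] at this
  have jb : j b = -j (C p.m3) := by
    have := congrArg j hb
    rwa [map_neg] at this
  have hq1 : A.q1 = 0 := by rw [hA]; simp [Par.map, h1]
  have hq2 : A.q2 = 0 := by rw [hA]; simp [Par.map, h2]
  have hq3 : A.q3 = 0 := by rw [hA]; simp [Par.map, h3]
  have ho : o ^ 2 + A.m3 * o + A.e6 = 0 := by
    rw [hodef, omega_rel, ← hj, ja, jb, hAm3, hAe6]
    ring
  have hD : (A.m3 ^ 2 - 4 * A.e6) * Di = 1 := by
    have : (p.m3 ^ 2 - 4 * p.e6) * Δ⁻¹ = 1 := by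
      rw [← hΔdef]
      exact mul_inv_cancel₀ hΔ
    have e := congrArg (fun t => j (C t)) this
    simp only [map_mul, map_sub, map_pow, map_ofNat, map_one] at e
    rw [hAm3, hAe6, hDi]
    exact e
  have hdisc : b ^ 2 + 4 * a ≠ 0 := by
    have : b ^ 2 + 4 * a = C Δ := by
      rw [hb, ha, hΔdef]
      simp only [C_sub, C_mul, C_pow, map_ofNat]
      ring
    rw [this]
    exact C_ne_zero.mpr hΔ
  -- the involution
  obtain ⟨st, hst⟩ : ∃ st : QuadraticAlgebra K[X] a b →+* QuadraticAlgebra K[X] a b,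
    ∀ z, st z = star z := ⟨starRingEnd _, fun z => rfl⟩
  have hstj : ∀ x, st (j x) = j x := by
    intro x
    rw [hst, hj, star_algebraMap]
  have hstA : A.map st = A := by
    rw [hA]
    simp only [Par.map, hstj]
  have hstD : st Di = Di := by rw [hDi, hstj]
  have hsto : st o = -A.m3 - o := by
    rw [hst, hodef, star_omega, ← hj, jb, hAm3]
  obtain ⟨s, hs⟩ : ∃ s, s = j X := ⟨_, rfl⟩
  have hsts : st s = s := by rw [hs, hstj]
  obtain ⟨c1, c2, c3, c4⟩ := E_conj A Di o s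
  have fw : star (Ew A Di o s) = Ew A Di o s := by
    rw [← hst, map_Ew, hstA, hstD, hsto, hsts, c1]
  have fx : star (Ex A Di o s) = Ex A Di o s := by
    rw [← hst, map_Ex, hstA, hstD, hsto, hsts, c2]
  have fy : star (Ey A Di o s) = Ey A Di o s := by
    rw [← hst, map_Ey, hstA, hstD, hsto, hsts, c3]
  have fz : star (Ez A Di o s) = Ez A Di o s := by
    rw [← hst, map_Ez, hstA, hstD, hsto, hsts, c4]
  have gw := eq_algebraMap_re a b _ (im_eq_zero a b hdisc _ fw)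
  have gx := eq_algebraMap_re a b _ (im_eq_zero a b hdisc _ fx)
  have gy := eq_algebraMap_re a b _ (im_eq_zero a b hdisc _ fy)
  have gz := eq_algebraMap_re a b _ (im_eq_zero a b hdisc _ fz)
  rw [← hj] at gw gx gy gz
  have hjinj : Function.Injective j := by
    rw [hj]
    exact QuadraticAlgebra.algebraMap_injective
  -- evaluation at zero
  obtain ⟨ev, hev⟩ : ∃ ev : K[X] →+* K, ev = evalRingHom 0 := ⟨_, rfl⟩
  obtain ⟨qe, hqe⟩ : ∃ qe, qe = qmap ev a b := ⟨_, rfl⟩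
  obtain ⟨i, hi⟩ : ∃ i : K →+* QuadraticAlgebra K (ev a) (ev b),
    i = algebraMap K (QuadraticAlgebra K (ev a) (ev b)) := ⟨_, rfl⟩
  have hiinj : Function.Injective i := by
    rw [hi]
    exact QuadraticAlgebra.algebraMap_injective
  have hqej : ∀ x, qe (j x) = i (ev x) := by
    intro x
    rw [hqe, hj, hi]
    ext <;> simp [qmap]
  have hevC : ∀ x, ev (C x) = x := by
    intro x
    simp [hev]
  have hqeA : A.map qe = p.map i := by
    rw [hA]
    simp only [Par.map, hqej, hevC]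
  have hevX : ev X = 0 := by
    rw [hev]
    simp
  have hqes : qe s = 0 := by
    rw [hs, hqej, hevX, map_zero]
  have hqeDi : qe Di = i Δ⁻¹ := by rw [hDi, hqej, hevC]
  obtain ⟨o', ho'⟩ : ∃ o', o' = qe o := ⟨_, rfl⟩
  have r1 : (p.map i).q1 = 0 := by simp [Par.map, h1]
  have r2 : (p.map i).q2 = 0 := by simp [Par.map, h2]
  have r3 : (p.map i).q3 = 0 := by simp [Par.map, h3]
  have ro : o' ^ 2 + (p.map i).m3 * o' + (p.map i).e6 = 0 := by
    have := congrArg qe ho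
    simp only [map_add, map_mul, map_pow, map_zero, ← ho'] at this
    rw [hAm3, hAe6, hqej, hqej, hevC, hevC] at this
    exact this
  have rD : ((p.map i).m3 ^ 2 - 4 * (p.map i).e6) * i Δ⁻¹ = 1 := by
    have := congrArg qe hD
    simp only [map_mul, map_sub, map_pow, map_ofNat, map_one, hqeDi] at this
    rw [hAm3, hAe6, hqej, hqej, hevC, hevC] at this
    exact this
  obtain ⟨z1, z2, z3, z4, z5, z6⟩ := E_zero (p.map i) (i Δ⁻¹) o' r1 r2 r3 ro rD
  -- the nonzero constant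
  obtain ⟨l0, hl0⟩ : ∃ l0, l0 = p.c1 + Δ⁻¹ * hform p Δ⁻¹ 1 0 * (2 * p.e4 - p.m3 * p.m1) := ⟨_, rfl⟩
  have hl0i : (p.map i).c1 + i Δ⁻¹ * hform (p.map i) (i Δ⁻¹) 1 0 *
      (2 * (p.map i).e4 - (p.map i).m3 * (p.map i).m1) = i l0 := by
    rw [hl0]
    simp only [map_add, map_mul, map_sub, map_ofNat, map_hform, map_one, map_zero]
    rfl
  have hl0ne : l0 ≠ 0 := by
    intro h0
    obtain ⟨h, hhdef⟩ : ∃ h, h = hform p Δ⁻¹ 1 0 := ⟨_, rfl⟩
    rw [← hhdef] at hl0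
    have hh2 : h = Δ⁻¹ * (p.e4 ^ 2 - p.m3 * p.e4 * p.m1 + p.e6 * p.m1 ^ 2) + p.e1 := by
      rw [hhdef, hform]
      ring
    apply hnc (-h / p.c1)
    have e1 : Δ * Δ⁻¹ = 1 := mul_inv_cancel₀ hΔ
    have key : p.c1 ^ 2 * ((p.m3 + p.m1 * (-h / p.c1)) ^ 2 -
      4 * (p.c1 * (-h / p.c1) ^ 3 + p.e1 * (-h / p.c1) ^ 2 + p.e4 * (-h / p.c1) + p.e6)) =
        Δ * l0 ^ 2 := by
      have e2 : p.c1 ^ 2 * ((p.m3 + p.m1 * (-h / p.c1)) ^ 2 -
        4 * (p.c1 * (-h / p.c1) ^ 3 + p.e1 * (-h / p.c1) ^ 2 + p.e4 * (-h / p.c1) + p.e6)) =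
        (p.m3 * p.c1 - p.m1 * h) ^ 2 + 4 * h ^ 3 - 4 * p.e1 * h ^ 2 + 4 * p.e4 * h * p.c1 -
          4 * p.e6 * p.c1 ^ 2 := by
        field_simp
        ring
      rw [e2, hl0]
      obtain ⟨D, hDd⟩ : ∃ D, D = Δ⁻¹ := ⟨_, rfl⟩
      rw [← hDd] at hh2 e1 ⊢
      linear_combination 4 * h ^ 2 * hh2 - (p.c1 ^ 2) * hΔdef
        - (2 * p.c1 * h * (2 * p.e4 - p.m3 * p.m1) + D * h ^ 2 * (2 * p.e4 - p.m3 * p.m1) ^ 2
          - 0) * e1 + (D * h ^ 2 * p.m1 ^ 2) * hΔdef - p.m1 ^ 2 * h ^ 2 * e1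
    rw [h0] at key
    have : p.c1 ^ 2 ≠ 0 := pow_ne_zero 2 hc
    rcases mul_eq_zero.mp (key.trans (by ring : Δ * (0 : K) ^ 2 = 0)) with h | h
    · exact absurd h this
    · exact h
  have hval : ∀ f : K[X], aeval (0 : AlgebraicClosure K) f =
      algebraMap K (AlgebraicClosure K) (ev f) := by
    intro f
    have : (0 : AlgebraicClosure K) = algebraMap K (AlgebraicClosure K) 0 := by rw [map_zero]
    rw [this, aeval_algebraMap_apply_eq_algebraMap_eval, hev]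
    rfl
  have hΔi : (p.map i).m3 ^ 2 - 4 * (p.map i).e6 = i Δ := by
    rw [hΔdef]
    simp only [map_sub, map_mul, map_pow, map_ofNat]
    rfl
  have hci : (p.map i).c1 = i p.c1 := rfl
  rw [hl0i, hΔi, hci] at z1 z2 z3
  have zw : i (ev (Ew A Di o s).re) = i (-p.c1 * Δ ^ 2 * l0 ^ 3) := by
    rw [← hqej, ← gw, map_Ew, hqeA, hqeDi, ← ho', hqes, z3]
    simp only [map_mul, map_neg, map_pow]
  have zx : ev (Ex A Di o s).re = 0 := by
    apply hiinj
    rw [← hqej, ← gx, map_Ex, hqeA, hqeDi, ← ho', hqes, z4, map_zero]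
  have zy : ev (Ey A Di o s).re = 0 := by
    apply hiinj
    rw [← hqej, ← gy, map_Ey, hqeA, hqeDi, ← ho', hqes, z5, map_zero]
  have zz : ev (Ez A Di o s).re = 0 := by
    apply hiinj
    rw [← hqej, ← gz, map_Ez, hqeA, hqeDi, ← ho', hqes, z6, map_zero]
  refine ⟨(Ew A Di o s).re, (Ex A Di o s).re, (Ey A Di o s).re, (Ez A Di o s).re, 0,
    ?_, ?_, ?_, ?_, ?_, ?_⟩
  · apply hjinj
    rw [map_cub, map_zero, ← gw, ← gx, ← gy, ← gz, ← hA]
    exact cub_E A Di o hq1 hq2 hq3 ho hD s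
  · by_contra hcon
    push Not at hcon
    obtain ⟨n1, n2, -⟩ := hcon
    rw [n1, map_zero] at gx
    rw [n2, map_zero] at gy
    obtain ⟨r, k3, k5⟩ := E_nonconst A Di o s ho hD gx gy
    have k4 : r = 0 := by
      apply mul_X_cancel a b
      rw [← hj, ← hs]
      exact k3
    have k5 := k5 _ qe hqes
    rw [k4, map_zero, hqeA, hqeDi, ← ho', z2] at k5
    have k6 : i (-p.c1 * Δ * l0 ^ 2 * hform p Δ⁻¹ 1 0) = i 0 := by
      rw [map_zero, k5]
      simp only [map_mul, map_neg, map_pow, map_hform, map_one, map_zero]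
    have k7 := hiinj k6
    exact (mul_ne_zero (mul_ne_zero (mul_ne_zero (neg_ne_zero.mpr hc) hΔ)
      (pow_ne_zero 2 hl0ne)) hh) k7
  · rw [hval, zx, map_zero]
  · rw [hval, zy, map_zero]
  · rw [hval, zz, map_zero]
  · rw [hval, hiinj zw, Ne, map_eq_zero]
    exact mul_ne_zero (mul_ne_zero (neg_ne_zero.mpr hc) (pow_ne_zero 2 hΔ)) (pow_ne_zero 3 hl0ne)

end Pool.Agent.TH157.Cub
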