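import Mathlib
import Pool.Agent.TH157.Cub.CoreB2

set_option autoImplicit false

namespace Pool.Agent.TH157.Cub

open Polynomial

/-- Affine change of the coordinates `x`, `y`, when there are no terms `w x ^ 2`, `w x y`,
`w y ^ 2`. -/
def rebase {R : Type*} [CommRing R] (p : Par R) (x0 y0 a1 a2 b1 b2 : R) : Par R where
  q1 := 0
  q2 := 0
  q3 := 0
  m1 := p.m1 * a1 + p.m2 * a2
  m2 := p.m1 * b1 + p.m2 * b2
  m3 := p.m1 * x0 + p.m2 * y0 + p.m3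
  c1 := p.c1 * a1 ^ 3 + p.c2 * a1 ^ 2 * a2 + p.c3 * a1 * a2 ^ 2 + p.c4 * a2 ^ 3
  c2 := 3 * p.c1 * a1 ^ 2 * b1 + p.c2 * (a1 ^ 2 * b2 + 2 * a1 * a2 * b1) +
    p.c3 * (a2 ^ 2 * b1 + 2 * a1 * a2 * b2) + 3 * p.c4 * a2 ^ 2 * b2
  c3 := 3 * p.c1 * a1 * b1 ^ 2 + p.c2 * (b1 ^ 2 * a2 + 2 * a1 * b1 * b2) +
    p.c3 * (b2 ^ 2 * a1 + 2 * b1 * a2 * b2) + 3 * p.c4 * a2 * b2 ^ 2
  c4 := p.c1 * b1 ^ 3 + p.c2 * b1 ^ 2 * b2 + p.c3 * b1 * b2 ^ 2 + p.c4 * b2 ^ 3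
  e1 := (3 * p.c1 * x0 + p.c2 * y0 + p.e1) * a1 ^ 2 +
    (2 * p.c2 * x0 + 2 * p.c3 * y0 + p.e2) * a1 * a2 +
    (p.c3 * x0 + 3 * p.c4 * y0 + p.e3) * a2 ^ 2
  e2 := 2 * (3 * p.c1 * x0 + p.c2 * y0 + p.e1) * a1 * b1 +
    (2 * p.c2 * x0 + 2 * p.c3 * y0 + p.e2) * (a1 * b2 + a2 * b1) +
    2 * (p.c3 * x0 + 3 * p.c4 * y0 + p.e3) * a2 * b2
  e3 := (3 * p.c1 * x0 + p.c2 * y0 + p.e1) * b1 ^ 2 +
    (2 * p.c2 * x0 + 2 * p.c3 * y0 + p.e2) * b1 * b2 +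
    (p.c3 * x0 + 3 * p.c4 * y0 + p.e3) * b2 ^ 2
  e4 := (3 * p.c1 * x0 ^ 2 + 2 * p.c2 * x0 * y0 + p.c3 * y0 ^ 2 + 2 * p.e1 * x0 + p.e2 * y0 + p.e4)
      * a1 +
    (p.c2 * x0 ^ 2 + 2 * p.c3 * x0 * y0 + 3 * p.c4 * y0 ^ 2 + p.e2 * x0 + 2 * p.e3 * y0 + p.e5) * a2
  e5 := (3 * p.c1 * x0 ^ 2 + 2 * p.c2 * x0 * y0 + p.c3 * y0 ^ 2 + 2 * p.e1 * x0 + p.e2 * y0 + p.e4)
      * b1 +
    (p.c2 * x0 ^ 2 + 2 * p.c3 * x0 * y0 + 3 * p.c4 * y0 ^ 2 + p.e2 * x0 + 2 * p.e3 * y0 + p.e5) * b2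
  e6 := p.c1 * x0 ^ 3 + p.c2 * x0 ^ 2 * y0 + p.c3 * x0 * y0 ^ 2 + p.c4 * y0 ^ 3 +
    p.e1 * x0 ^ 2 + p.e2 * x0 * y0 + p.e3 * y0 ^ 2 + p.e4 * x0 + p.e5 * y0 + p.e6

theorem cub_rebase {R : Type*} [CommRing R] (p : Par R) (h1 : p.q1 = 0) (h2 : p.q2 = 0)
    (h3 : p.q3 = 0) (x0 y0 a1 a2 b1 b2 w a b z : R) :
    cub p w (x0 * z + a1 * a + b1 * b) (y0 * z + a2 * a + b2 * b) z =
      cub (rebase p x0 y0 a1 a2 b1 b2) w a b z := by
  simp only [cub, rebase, h1, h2, h3]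
  ring

theorem map_rebase {R S : Type*} [CommRing R] [CommRing S] (f : R →+* S) (p : Par R)
    (x0 y0 a1 a2 b1 b2 : R) : (rebase p x0 y0 a1 a2 b1 b2).map f =
      rebase (p.map f) (f x0) (f y0) (f a1) (f a2) (f b1) (f b2) := by
  simp [rebase, Par.map, map_ofNat f]

variable {K : Type*} [Field K]

theorem sol_rebase (p : Par K) (h1 : p.q1 = 0) (h2 : p.q2 = 0)
    (h3 : p.q3 = 0) (x0 y0 a1 a2 b1 b2 : K) (hdet : a1 * b2 - a2 * b1 ≠ 0)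
    (h : Sol (rebase p x0 y0 a1 a2 b1 b2)) : Sol p := by
  obtain ⟨f0, f1, f2, f3, s, hF, hne, hs1, hs2, hs3, hs0⟩ := h
  refine ⟨f0, C x0 * f3 + C a1 * f1 + C b1 * f2, C y0 * f3 + C a2 * f1 + C b2 * f2, f3, s,
    ?_, ?_, ?_, ?_, hs3, hs0⟩
  · rw [cub_rebase (p.map C) (by simp [Par.map, h1]) (by simp [Par.map, h2])
      (by simp [Par.map, h3]), ← map_rebase]
    exact hF
  · by_contra hcon
    push Not at hcon
    obtain ⟨n1, n2, n3⟩ := hcon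
    rw [n3] at n1 n2
    have hd : (C (a1 * b2 - a2 * b1) : K[X]) ≠ 0 := C_ne_zero.mpr hdet
    simp only [C_sub, C_mul] at hd
    have e1 : (C a1 * C b2 - C a2 * C b1) * f1 = 0 := by
      linear_combination C b2 * n1 - C b1 * n2
    have e2 : (C a1 * C b2 - C a2 * C b1) * f2 = 0 := by
      linear_combination C a1 * n2 - C a2 * n1
    rcases hne with h | h | h
    · exact h ((mul_eq_zero.mp e1).resolve_left hd)
    · exact h ((mul_eq_zero.mp e2).resolve_left hd)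
    · exact h n3
  · simp [hs1, hs2, hs3]
  · simp [hs1, hs2, hs3]

theorem contact (p : Par K) (h1 : p.q1 = 0) (h2 : p.q2 = 0)
    (h3 : p.q3 = 0) (w0 : K) (hw : w0 ^ 2 + p.m3 * w0 + p.e6 = 0) (hw2 : 2 * w0 + p.m3 = 0) :
    Sol p := by
  obtain ⟨dx, dy, hd, hl⟩ : ∃ dx dy : K, ¬ (dx = 0 ∧ dy = 0) ∧
      w0 * (p.m1 * dx + p.m2 * dy) + (p.e4 * dx + p.e5 * dy) = 0 := by
    by_cases h : w0 * p.m1 + p.e4 = 0 ∧ w0 * p.m2 + p.e5 = 0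
    · refine ⟨1, 0, by simp, ?_⟩
      linear_combination h.1
    · refine ⟨w0 * p.m2 + p.e5, -(w0 * p.m1 + p.e4), ?_, by ring⟩
      rintro ⟨k1, k2⟩
      exact h ⟨neg_eq_zero.mp k2, k1⟩
  obtain ⟨g3, hg3⟩ : ∃ g3, g3 = p.c1 * dx ^ 3 + p.c2 * dx ^ 2 * dy + p.c3 * dx * dy ^ 2 +
    p.c4 * dy ^ 3 := ⟨_, rfl⟩
  by_cases hg : g3 = 0
  · exact case0 p dx dy hd (by rw [h1, h2, h3]; ring) (by rw [← hg3]; exact hg)
  obtain ⟨M, hM⟩ : ∃ M, M = p.m1 * dx + p.m2 * dy := ⟨_, rfl⟩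
  obtain ⟨g2, hg2⟩ : ∃ g2, g2 = p.e1 * dx ^ 2 + p.e2 * dx * dy + p.e3 * dy ^ 2 := ⟨_, rfl⟩
  obtain ⟨T, hT⟩ : ∃ T : K[X], T = -(1 + X * C M + X ^ 2 * C g2) * C g3⁻¹ := ⟨_, rfl⟩
  refine ⟨C w0 * X ^ 3 + T, X * T * C dx, X * T * C dy, X ^ 3, 0, ?_, ?_, ?_, ?_, ?_, ?_⟩
  · have k1 : (C (w0 ^ 2 + p.m3 * w0 + p.e6) : K[X]) = 0 := by rw [hw, C_0]
    have k2 : (C (2 * w0 + p.m3) : K[X]) = 0 := by rw [hw2, C_0]
    have k3 : (C (w0 * (p.m1 * dx + p.m2 * dy) + (p.e4 * dx + p.e5 * dy)) : K[X]) = 0 := by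
      rw [hl, C_0]
    have k4 : (C (g3⁻¹ * g3) : K[X]) = 1 := by rw [inv_mul_cancel₀ hg, C_1]
    have k5 : (C g3 : K[X]) = C (p.c1 * dx ^ 3 + p.c2 * dx ^ 2 * dy + p.c3 * dx * dy ^ 2 +
      p.c4 * dy ^ 3) := by rw [hg3]
    have k6 : (C M : K[X]) = C (p.m1 * dx + p.m2 * dy) := by rw [hM]
    have k7 : (C g2 : K[X]) = C (p.e1 * dx ^ 2 + p.e2 * dx * dy + p.e3 * dy ^ 2) := by rw [hg2]
    have k8 : 1 + X * C M + X ^ 2 * C g2 + T * C g3 = 0 := by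
      rw [hT]
      rw [C_mul] at k4
      linear_combination -(1 + X * C M + X ^ 2 * C g2) * k4
    simp only [C_add, C_mul, C_pow, map_ofNat] at k1 k2 k3 k5 k6 k7
    have hq1 : (p.map C).q1 = 0 := by simp [Par.map, h1]
    have hq2 : (p.map C).q2 = 0 := by simp [Par.map, h2]
    have hq3 : (p.map C).q3 = 0 := by simp [Par.map, h3]
    simp only [cub, hq1, hq2, hq3]
    simp only [Par.map]
    linear_combination X ^ 9 * k1 + X ^ 6 * T * k2 + X ^ 7 * T * k3 + X ^ 3 * T ^ 2 * k8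
      - X ^ 3 * T ^ 3 * k5 - X ^ 4 * T ^ 2 * k6 - X ^ 5 * T ^ 2 * k7
  · right; right
    exact pow_ne_zero 3 X_ne_zero
  · simp
  · simp
  · simp
  · simp [hT, hg]

theorem exists_w0 [Finite K] (m e : K) (h : m ^ 2 - 4 * e = 0) :
    ∃ w0 : K, w0 ^ 2 + m * w0 + e = 0 ∧ 2 * w0 + m = 0 := by
  by_cases h2 : (2 : K) = 0
  · have hm : m = 0 := by
      have : m ^ 2 = 0 := by linear_combination h + 2 * e * h2
      exact pow_eq_zero_iff (two_ne_zero) |>.mp this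
    have hcp : CharP K 2 := CharTwo.of_one_ne_zero_of_two_eq_zero one_ne_zero h2
    have := FiniteField.isSquare_of_char_two (F := K) (ringChar.eq K 2) e
    obtain ⟨r, hr⟩ := this
    refine ⟨r, ?_, ?_⟩
    · rw [hm, hr]
      linear_combination r * r * h2
    · rw [hm, h2]
      ring
  · refine ⟨-m / 2, ?_, ?_⟩
    · have : (4 : K) ≠ 0 := by
        have : (4 : K) = 2 * 2 := by norm_num
        rw [this]
        exact mul_ne_zero h2 h2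
      field_simp
      linear_combination -h
    · field_simp
      ring

/-- The case in which the tangent plane section is a cone with vertex the point. -/
theorem caseB [Finite K] (p : Par K) (h1 : p.q1 = 0) (h2 : p.q2 = 0)
    (h3 : p.q3 = 0) : Sol p := by
  classical
  by_contra hS
  have hC : ∀ x y : K, ¬ (x = 0 ∧ y = 0) →
      p.c1 * x ^ 3 + p.c2 * x ^ 2 * y + p.c3 * x * y ^ 2 + p.c4 * y ^ 3 ≠ 0 := by
    intro x y hxy h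
    exact hS (case0 p x y hxy (by rw [h1, h2, h3]; ring) h)
  have hD : ∀ x y : K, (p.m1 * x + p.m2 * y + p.m3) ^ 2 - 4 *
      (p.c1 * x ^ 3 + p.c2 * x ^ 2 * y + p.c3 * x * y ^ 2 + p.c4 * y ^ 3 +
        p.e1 * x ^ 2 + p.e2 * x * y + p.e3 * y ^ 2 + p.e4 * x + p.e5 * y + p.e6) ≠ 0 := by
    intro x y h
    obtain ⟨w0, hw, hw2⟩ := exists_w0 (rebase p x y 1 0 0 1).m3 (rebase p x y 1 0 0 1).e6 h
    exact hS (sol_rebase p h1 h2 h3 x y 1 0 0 1 (by simp) (contact _ rfl rfl rfl w0 hw hw2))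
  have hH1 : ∀ x y a1 a2 b1 b2 : K, a1 * b2 - a2 * b1 ≠ 0 →
      ((rebase p x y a1 a2 b1 b2).m3 ^ 2 - 4 * (rebase p x y a1 a2 b1 b2).e6) *
        (rebase p x y a1 a2 b1 b2).e1 + (rebase p x y a1 a2 b1 b2).e4 ^ 2 -
        (rebase p x y a1 a2 b1 b2).m3 * (rebase p x y a1 a2 b1 b2).e4 *
          (rebase p x y a1 a2 b1 b2).m1 +
        (rebase p x y a1 a2 b1 b2).e6 * (rebase p x y a1 a2 b1 b2).m1 ^ 2 = 0 := by
    intro x y a1 a2 b1 b2 hdet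
    by_contra hne
    apply hS
    apply sol_rebase p h1 h2 h3 x y a1 a2 b1 b2 hdet
    have hd : (rebase p x y a1 a2 b1 b2).m3 ^ 2 - 4 * (rebase p x y a1 a2 b1 b2).e6 ≠ 0 := hD x y
    apply coreB _ rfl rfl rfl _ hd
    · intro h0
      apply hne
      simp only [hform] at h0
      obtain ⟨D, hDd⟩ : ∃ D, D = (rebase p x y a1 a2 b1 b2).m3 ^ 2 -
        4 * (rebase p x y a1 a2 b1 b2).e6 := ⟨_, rfl⟩
      rw [← hDd] at hd h0 ⊢
      have hi : D * D⁻¹ = 1 := mul_inv_cancel₀ hd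
      linear_combination D * h0 - ((rebase p x y a1 a2 b1 b2).e4 ^ 2 -
        (rebase p x y a1 a2 b1 b2).m3 * (rebase p x y a1 a2 b1 b2).e4 *
          (rebase p x y a1 a2 b1 b2).m1 +
        (rebase p x y a1 a2 b1 b2).e6 * (rebase p x y a1 a2 b1 b2).m1 ^ 2) * hi
    · intro t h0
      apply hD (x + a1 * t) (y + a2 * t)
      simp only [rebase] at h0
      linear_combination h0
    · apply hC
      rintro ⟨r1, r2⟩
      apply hdet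
      rw [r1, r2]
      ring
  have hH : ∀ x y a1 a2 : K,
      ((p.m1 * x + p.m2 * y + p.m3) ^ 2 - 4 *
        (p.c1 * x ^ 3 + p.c2 * x ^ 2 * y + p.c3 * x * y ^ 2 + p.c4 * y ^ 3 +
        p.e1 * x ^ 2 + p.e2 * x * y + p.e3 * y ^ 2 + p.e4 * x + p.e5 * y + p.e6)) *
      ((3 * p.c1 * x + p.c2 * y + p.e1) * a1 ^ 2 + (2 * p.c2 * x + 2 * p.c3 * y + p.e2) * a1 * a2 +
        (p.c3 * x + 3 * p.c4 * y + p.e3) * a2 ^ 2) +
      ((3 * p.c1 * x ^ 2 + 2 * p.c2 * x * y + p.c3 * y ^ 2 + 2 * p.e1 * x + p.e2 * y + p.e4) * a1 +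
       (p.c2 * x ^ 2 + 2 * p.c3 * x * y + 3 * p.c4 * y ^ 2 + p.e2 * x + 2 * p.e3 * y + p.e5) * a2)
        ^ 2 -
      (p.m1 * x + p.m2 * y + p.m3) *
      ((3 * p.c1 * x ^ 2 + 2 * p.c2 * x * y + p.c3 * y ^ 2 + 2 * p.e1 * x + p.e2 * y + p.e4) * a1 +
       (p.c2 * x ^ 2 + 2 * p.c3 * x * y + 3 * p.c4 * y ^ 2 + p.e2 * x + 2 * p.e3 * y + p.e5) * a2)
        * (p.m1 * a1 + p.m2 * a2) +
      (p.c1 * x ^ 3 + p.c2 * x ^ 2 * y + p.c3 * x * y ^ 2 + p.c4 * y ^ 3 +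
        p.e1 * x ^ 2 + p.e2 * x * y + p.e3 * y ^ 2 + p.e4 * x + p.e5 * y + p.e6) *
        (p.m1 * a1 + p.m2 * a2) ^ 2 = 0 := by
    intro x y a1 a2
    by_cases hz : a1 = 0
    · by_cases hz2 : a2 = 0
      · rw [hz, hz2]
        ring
      · exact hH1 x y a1 a2 1 0 (by simpa [hz] using hz2)
    · exact hH1 x y a1 a2 0 1 (by simpa using hz)
  clear hH1
  -- the consequence for parallel vectors
  have hs : ∀ x y : K, ¬ (x = 0 ∧ y = 0) →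
      -3 * (p.m3 ^ 2 - 4 * p.e6) *
        (p.c1 * x ^ 3 + p.c2 * x ^ 2 * y + p.c3 * x * y ^ 2 + p.c4 * y ^ 3) +
      3 * (p.m3 ^ 2 - 4 * p.e6) ^ 2 + 3 * (p.m3 ^ 2 - 4 * p.e6) *
        (p.m3 * (p.m1 * x + p.m2 * y) - 2 * (p.e4 * x + p.e5 * y)) +
      (p.m3 * (p.m1 * x + p.m2 * y) - 2 * (p.e4 * x + p.e5 * y)) ^ 2 = 0 := by
    intro x y hxy
    have e0 := hH 0 0 x y
    have e1 := hH x y x y
    refine (mul_eq_zero.mp (?_ : (p.c1 * x ^ 3 + p.c2 * x ^ 2 * y + p.c3 * x * y ^ 2 +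
      p.c4 * y ^ 3) * _ = 0)).resolve_left (hC x y hxy)
    linear_combination (p.m3 ^ 2 - 4 * p.e6) * e1 - ((p.m3 ^ 2 - 4 * p.e6) - 4 *
      (p.c1 * x ^ 3 + p.c2 * x ^ 2 * y + p.c3 * x * y ^ 2 + p.c4 * y ^ 3)) * e0
  have hΔ0 : p.m3 ^ 2 - 4 * p.e6 ≠ 0 := by
    intro h
    apply hD 0 0
    linear_combination h
  by_cases hch3 : (3 : K) = 0
  · -- characteristic three
    have hcp : CharP K 3 := by
      exact (CharP.charP_iff_prime_eq_zero Nat.prime_three).mpr (by exact_mod_cast hch3)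
    have hc := hC 1 0 (by simp)
    have hl1 : p.m3 * p.m1 - 2 * p.e4 = 0 := by
      have e := hs 1 0 (by simp)
      have : (p.m3 * p.m1 - 2 * p.e4) ^ 2 = 0 := by
        linear_combination e + ((p.m3 ^ 2 - 4 * p.e6) * p.c1 - (p.m3 ^ 2 - 4 * p.e6) ^ 2 -
          (p.m3 ^ 2 - 4 * p.e6) * (p.m3 * p.m1 - 2 * p.e4)) * hch3
      exact (pow_eq_zero_iff two_ne_zero).mp this
    obtain ⟨t, ht⟩ : ∃ t : K, t ^ 3 = (p.m3 ^ 2 - 4 * p.e6) / p.c1 := by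
      have hp : Fact (Nat.Prime 3) := ⟨Nat.prime_three⟩
      have hinj : Function.Injective (frobenius K 3) := frobenius_inj K 3
      obtain ⟨t, ht⟩ := Finite.surjective_of_injective hinj ((p.m3 ^ 2 - 4 * p.e6) / p.c1)
      exact ⟨t, by rw [← ht, frobenius_def]⟩
    have hc1 : p.c1 ≠ 0 := by
      intro h
      apply hc
      rw [h]
      ring
    have ht' : p.c1 * t ^ 3 = p.m3 ^ 2 - 4 * p.e6 := by
      rw [ht]
      field_simp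
    apply hD t 0
    refine (mul_eq_zero.mp (?_ : (p.m3 ^ 2 - 4 * p.e6) * _ = 0)).resolve_left hΔ0
    have e0 := hH 0 0 t 0
    linear_combination (-4) * e0 + (2 * (p.m3 ^ 2 - 4 * p.e6) * t +
      t ^ 2 * (p.m3 * p.m1 - 2 * p.e4)) * hl1 - 4 * (p.m3 ^ 2 - 4 * p.e6) * ht' -
      (p.m3 ^ 2 - 4 * p.e6) ^ 2 * hch3
  by_cases hch2 : (2 : K) = 0
  · -- characteristic two
    have h4 : (4 : K) = 0 := by linear_combination 2 * hch2
    have h31 : (3 : K) = 1 := by linear_combination hch2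
    have m1z : p.m1 = 0 := by
      by_contra hm
      apply hD (-p.m3 / p.m1) 0
      rw [h4, zero_mul, sub_zero]
      have : p.m1 * (-p.m3 / p.m1) + p.m2 * 0 + p.m3 = 0 := by
        field_simp
        ring
      rw [this]
      ring
    have m2z : p.m2 = 0 := by
      by_contra hm
      apply hD 0 (-p.m3 / p.m2)
      rw [h4, zero_mul, sub_zero]
      have : p.m1 * 0 + p.m2 * (-p.m3 / p.m2) + p.m3 = 0 := by
        field_simp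
        ring
      rw [this]
      ring
    rw [m1z, m2z] at hs hH
    simp only [h4, zero_mul, sub_zero, mul_zero, add_zero, zero_add, hch2, h31, one_mul,
      ne_eq, OfNat.ofNat_ne_zero, not_false_eq_true, zero_pow] at hs hH hΔ0
    have hs' : ∀ x y : K, ¬ (x = 0 ∧ y = 0) →
        p.c1 * x ^ 3 + p.c2 * x ^ 2 * y + p.c3 * x * y ^ 2 + p.c4 * y ^ 3 = p.m3 ^ 2 := by
      intro x y hxy
      have e := hs x y hxy
      have : p.m3 ^ 2 * (p.c1 * x ^ 3 + p.c2 * x ^ 2 * y + p.c3 * x * y ^ 2 + p.c4 * y ^ 3 -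
          p.m3 ^ 2) = 0 := by
        linear_combination -e
      exact sub_eq_zero.mp ((mul_eq_zero.mp this).resolve_left hΔ0)
    have hc1 : p.c1 ≠ 0 := by
      have := hC 1 0 (by simp)
      simpa using this
    have e2z : p.e2 = 0 := by
      have k1 := hH 0 0 1 0
      have k2 := hH 0 0 0 1
      have k3 := hH 0 0 1 1
      have : p.m3 ^ 2 * p.e2 = 0 := by
        linear_combination k3 - k1 - k2 - p.e4 * p.e5 * hch2
      exact (mul_eq_zero.mp this).resolve_left hΔ0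
    have k1 := hH 1 0 p.c2 p.c1
    have k2 := hH 0 0 p.c2 p.c1
    rw [e2z] at k1 k2
    have k3 : p.m3 ^ 2 * (p.c1 * p.c2 ^ 2 + p.c3 * p.c1 ^ 2) = 0 := by
      linear_combination k1 - k2 - (2 * (p.c1 * p.c2) ^ 2 + 2 * (p.c1 * p.c2) *
        (p.e4 * p.c2 + p.e5 * p.c1)) * hch2
    have k4 : p.c1 * p.c2 ^ 2 + p.c3 * p.c1 ^ 2 = 0 := (mul_eq_zero.mp k3).resolve_left hΔ0
    have g1 := hs' 1 0 (by simp)
    have g2 := hs' p.c2 p.c1 (fun h => hc1 h.2)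
    have g3 := hs' (1 + p.c2) p.c1 (fun h => hc1 h.2)
    apply hΔ0
    linear_combination g3 - g2 - g1 - k4 - (2 * p.c1 * p.c2 + 2 * p.c1 * p.c2 ^ 2) * hch2
  · -- other characteristics
    obtain ⟨x, y, hxy, hl⟩ : ∃ x y : K, ¬ (x = 0 ∧ y = 0) ∧
        p.m3 * (p.m1 * x + p.m2 * y) - 2 * (p.e4 * x + p.e5 * y) = 0 := by
      by_cases h : p.m3 * p.m1 - 2 * p.e4 = 0 ∧ p.m3 * p.m2 - 2 * p.e5 = 0
      · refine ⟨1, 0, by simp, ?_⟩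
        linear_combination h.1
      · refine ⟨p.m3 * p.m2 - 2 * p.e5, -(p.m3 * p.m1 - 2 * p.e4), ?_, by ring⟩
        rintro ⟨k1, k2⟩
        exact h ⟨neg_eq_zero.mp k2, k1⟩
    have e1 := hs x y hxy
    have e2 := hs (-x) (-y) (by
      rintro ⟨k1, k2⟩
      exact hxy ⟨neg_eq_zero.mp k1, neg_eq_zero.mp k2⟩)
    have : (3 : K) * 2 * (p.m3 ^ 2 - 4 * p.e6) ^ 2 = 0 := by
      linear_combination e1 + e2 - 2 *
        (p.m3 * (p.m1 * x + p.m2 * y) - 2 * (p.e4 * x + p.e5 * y)) * hl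
    exact (mul_ne_zero (mul_ne_zero hch3 hch2) (pow_ne_zero 2 hΔ0)) this

end Pool.Agent.TH157.Cub
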