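import Mathlib
import Pool.Agent.TH157.Cub.CaseB

set_option autoImplicit false

namespace Pool.Agent.TH157.Cub

open MvPolynomial

theorem homog_sum {k : Type*} [Field k] (G : MvPolynomial (Fin 4) k) (n : ℕ)
    (hG : G.IsHomogeneous n) :
    G = ∑ d ∈ Finset.Nat.antidiagonalTuple 4 n,
      C (coeff (Finsupp.equivFunOnFinite.symm d) G) * ∏ i, X i ^ d i := by
  classical
  have h1 : G = ∑ m ∈ (Finset.Nat.antidiagonalTuple 4 n).map
      (Finsupp.equivFunOnFinite.symm.toEmbedding : (Fin 4 → ℕ) ↪ (Fin 4 →₀ ℕ)),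
      monomial m (coeff m G) := by
    conv_lhs => rw [← support_sum_monomial_coeff G]
    refine Finset.sum_subset ?_ ?_
    · intro m hm
      rw [Finset.mem_map]
      refine ⟨m, ?_, ?_⟩
      · rw [Finset.Nat.mem_antidiagonalTuple]
        have := hG (mem_support_iff.mp hm)
        rw [← this]
        simp [Finsupp.weight_apply, Finsupp.sum_fintype]
      · ext i
        simp
    · intro m _ hm
      rw [notMem_support_iff.mp hm, monomial_zero]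
  conv_lhs => rw [h1, Finset.sum_map]
  refine Finset.sum_congr rfl fun d _ => ?_
  rw [monomial_eq, Finsupp.prod_fintype _ _ (by simp)]
  simp

theorem tuple43 : Finset.Nat.antidiagonalTuple 4 3 =
    {![3, 0, 0, 0], ![2, 1, 0, 0], ![2, 0, 1, 0], ![2, 0, 0, 1], ![1, 2, 0, 0], ![1, 1, 1, 0],
      ![1, 0, 2, 0], ![1, 1, 0, 1], ![1, 0, 1, 1], ![1, 0, 0, 2], ![0, 3, 0, 0], ![0, 2, 1, 0],
      ![0, 1, 2, 0], ![0, 0, 3, 0], ![0, 2, 0, 1], ![0, 1, 1, 1], ![0, 0, 2, 1], ![0, 1, 0, 2],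
      ![0, 0, 1, 2], ![0, 0, 0, 3]} := by
  decide

theorem sum43 {A : Type*} [AddCommMonoid A] (f : (Fin 4 → ℕ) → A) :
    ∑ d ∈ Finset.Nat.antidiagonalTuple 4 3, f d =
      f ![3, 0, 0, 0] + (f ![2, 1, 0, 0] + (f ![2, 0, 1, 0] + (f ![2, 0, 0, 1] +
      (f ![1, 2, 0, 0] + (f ![1, 1, 1, 0] +
      (f ![1, 0, 2, 0] + (f ![1, 1, 0, 1] + (f ![1, 0, 1, 1] + (f ![1, 0, 0, 2] +
      (f ![0, 3, 0, 0] + (f ![0, 2, 1, 0] +
      (f ![0, 1, 2, 0] + (f ![0, 0, 3, 0] + (f ![0, 2, 0, 1] + (f ![0, 1, 1, 1] +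
      (f ![0, 0, 2, 1] + (f ![0, 1, 0, 2] +
      (f ![0, 0, 1, 2] + f ![0, 0, 0, 3])))))))))))))))))) := by
  rw [tuple43]
  repeat rw [Finset.sum_insert (by decide)]
  rw [Finset.sum_singleton]

theorem cubic_explicit {k : Type*} [Field k] (G : MvPolynomial (Fin 4) k)
    (hG : G.IsHomogeneous 3) : ∃ (g0 g1 g2 g3 : k) (p : Par k),
      G = C g0 * X 0 ^ 3 + X 0 ^ 2 * (C g1 * X 1 + C g2 * X 2 + C g3 * X 3) +
        cub (p.map C) (X 0) (X 1) (X 2) (X 3) := by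
  obtain ⟨c, hc⟩ : ∃ c : (Fin 4 → ℕ) → k,
    c = fun d => coeff (Finsupp.equivFunOnFinite.symm d) G := ⟨_, rfl⟩
  refine ⟨c ![3, 0, 0, 0], c ![2, 1, 0, 0], c ![2, 0, 1, 0], c ![2, 0, 0, 1] - 1,
    ⟨c ![1, 2, 0, 0], c ![1, 1, 1, 0], c ![1, 0, 2, 0], c ![1, 1, 0, 1], c ![1, 0, 1, 1],
      c ![1, 0, 0, 2], c ![0, 3, 0, 0], c ![0, 2, 1, 0], c ![0, 1, 2, 0], c ![0, 0, 3, 0],
      c ![0, 2, 0, 1], c ![0, 1, 1, 1], c ![0, 0, 2, 1], c ![0, 1, 0, 2], c ![0, 0, 1, 2],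
      c ![0, 0, 0, 3]⟩, ?_⟩
  have h := homog_sum G 3 hG
  have h2 : ∀ d, coeff (Finsupp.equivFunOnFinite.symm d) G = c d := fun d => by rw [hc]
  simp only [h2] at h
  rw [sum43] at h
  conv_lhs => rw [h]
  simp only [Fin.prod_univ_four, cub, Par.map, C_sub, C_1, Matrix.cons_val]
  ring

end Pool.Agent.TH157.Cub
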