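import Mathlib
import Pool.Agent.TH157.Cub.Explicit

set_option autoImplicit false

namespace Pool.Agent.TH157.Cub

open Polynomial

/-- Linear change of the coordinates `x`, `y`. -/
def lin {R : Type*} [CommRing R] (p : Par R) (a1 a2 b1 b2 : R) : Par R where
  q1 := p.q1 * a1 ^ 2 + p.q2 * a1 * a2 + p.q3 * a2 ^ 2
  q2 := 2 * p.q1 * a1 * b1 + p.q2 * (a1 * b2 + a2 * b1) + 2 * p.q3 * a2 * b2
  q3 := p.q1 * b1 ^ 2 + p.q2 * b1 * b2 + p.q3 * b2 ^ 2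
  m1 := p.m1 * a1 + p.m2 * a2
  m2 := p.m1 * b1 + p.m2 * b2
  m3 := p.m3
  c1 := p.c1 * a1 ^ 3 + p.c2 * a1 ^ 2 * a2 + p.c3 * a1 * a2 ^ 2 + p.c4 * a2 ^ 3
  c2 := 3 * p.c1 * a1 ^ 2 * b1 + p.c2 * (a1 ^ 2 * b2 + 2 * a1 * a2 * b1) +
    p.c3 * (a2 ^ 2 * b1 + 2 * a1 * a2 * b2) + 3 * p.c4 * a2 ^ 2 * b2
  c3 := 3 * p.c1 * a1 * b1 ^ 2 + p.c2 * (b1 ^ 2 * a2 + 2 * a1 * b1 * b2) +
    p.c3 * (b2 ^ 2 * a1 + 2 * b1 * a2 * b2) + 3 * p.c4 * a2 * b2 ^ 2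
  c4 := p.c1 * b1 ^ 3 + p.c2 * b1 ^ 2 * b2 + p.c3 * b1 * b2 ^ 2 + p.c4 * b2 ^ 3
  e1 := p.e1 * a1 ^ 2 + p.e2 * a1 * a2 + p.e3 * a2 ^ 2
  e2 := 2 * p.e1 * a1 * b1 + p.e2 * (a1 * b2 + a2 * b1) + 2 * p.e3 * a2 * b2
  e3 := p.e1 * b1 ^ 2 + p.e2 * b1 * b2 + p.e3 * b2 ^ 2
  e4 := p.e4 * a1 + p.e5 * a2
  e5 := p.e4 * b1 + p.e5 * b2
  e6 := p.e6

theorem cub_lin {R : Type*} [CommRing R] (p : Par R) (a1 a2 b1 b2 w a b z : R) :
    cub p w (a1 * a + b1 * b) (a2 * a + b2 * b) z = cub (lin p a1 a2 b1 b2) w a b z := by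
  simp only [cub, lin]
  ring

theorem map_lin {R S : Type*} [CommRing R] [CommRing S] (f : R →+* S) (p : Par R)
    (a1 a2 b1 b2 : R) : (lin p a1 a2 b1 b2).map f =
      lin (p.map f) (f a1) (f a2) (f b1) (f b2) := by
  simp [lin, Par.map, map_ofNat f]

variable {K : Type*} [Field K]

theorem sol_lin (p : Par K) (a1 a2 b1 b2 : K) (hdet : a1 * b2 - a2 * b1 ≠ 0)
    (h : Sol (lin p a1 a2 b1 b2)) : Sol p := by
  obtain ⟨f0, f1, f2, f3, s, hF, hne, hs1, hs2, hs3, hs0⟩ := h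
  refine ⟨f0, C a1 * f1 + C b1 * f2, C a2 * f1 + C b2 * f2, f3, s,
    ?_, ?_, ?_, ?_, hs3, hs0⟩
  · rw [cub_lin (p.map C), ← map_lin]
    exact hF
  · by_contra hcon
    push Not at hcon
    obtain ⟨n1, n2, n3⟩ := hcon
    have hd : (C (a1 * b2 - a2 * b1) : K[X]) ≠ 0 := C_ne_zero.mpr hdet
    simp only [C_sub, C_mul] at hd
    have e1 : (C a1 * C b2 - C a2 * C b1) * f1 = 0 := by
      linear_combination C b2 * n1 - C b1 * n2
    have e2 : (C a1 * C b2 - C a2 * C b1) * f2 = 0 := by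
      linear_combination C a1 * n2 - C a2 * n1
    rcases hne with h | h | h
    · exact h ((mul_eq_zero.mp e1).resolve_left hd)
    · exact h ((mul_eq_zero.mp e2).resolve_left hd)
    · exact h n3
  · simp [hs1, hs2]
  · simp [hs1, hs2]

theorem smooth_lin (p : Par K) (a1 a2 b1 b2 : K) (hdet : a1 * b2 - a2 * b1 ≠ 0)
    (h : SmoothPlane p) : SmoothPlane (lin p a1 a2 b1 b2) := by
  obtain ⟨i, hi⟩ : ∃ i : K →+* AlgebraicClosure K, i = algebraMap K (AlgebraicClosure K) :=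
    ⟨_, rfl⟩
  rintro w x y hxy p' hp' hc ⟨g1, g2, g3, g4⟩
  rw [map_lin, ← hi] at hp'
  obtain ⟨P, hP⟩ : ∃ P, P = p.map i := ⟨_, rfl⟩
  rw [← hP] at hp'
  have hd : i a1 * i b2 - i a2 * i b1 ≠ 0 := by
    rw [← map_mul, ← map_mul, ← map_sub]
    exact (map_ne_zero i).mpr hdet
  rw [hp', ← cub_lin] at hc
  rw [hp'] at g1 g2 g3 g4
  simp only [lin] at g1 g2 g3 g4
  refine h w (i a1 * x + i b1 * y) (i a2 * x + i b2 * y) ?_ P (by rw [hP, hi]) hc ⟨?_, ?_, ?_, ?_⟩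
  · rintro ⟨n1, n2⟩
    apply hxy
    have e1 : (i a1 * i b2 - i a2 * i b1) * x = 0 := by
      linear_combination i b2 * n1 - i b1 * n2
    have e2 : (i a1 * i b2 - i a2 * i b1) * y = 0 := by
      linear_combination i a1 * n2 - i a2 * n1
    exact ⟨(mul_eq_zero.mp e1).resolve_left hd, (mul_eq_zero.mp e2).resolve_left hd⟩
  · linear_combination g1
  · apply (mul_eq_zero.mp (?_ : (i a1 * i b2 - i a2 * i b1) * _ = 0)).resolve_left hd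
    linear_combination i b2 * g2 - i a2 * g3
  · apply (mul_eq_zero.mp (?_ : (i a1 * i b2 - i a2 * i b1) * _ = 0)).resolve_left hd
    linear_combination i a1 * g3 - i b1 * g2
  · linear_combination g4

/-- The main theorem for forms in adapted coordinates. -/
theorem sol_of_smooth [Finite K] (p : Par K) (h : SmoothPlane p) : Sol p := by
  by_cases h0 : p.q1 = 0 ∧ p.q2 = 0 ∧ p.q3 = 0
  · exact caseB p h0.1 h0.2.1 h0.2.2
  by_cases h1 : p.q1 = 0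
  · by_cases h3 : p.q3 = 0
    · have h2 : p.q2 ≠ 0 := fun h => h0 ⟨h1, h, h3⟩
      refine sol_lin p 1 1 0 1 (by simp) (caseA _ ?_ (smooth_lin p 1 1 0 1 (by simp) h))
      simpa [lin, h1, h3] using h2
    · refine sol_lin p 0 1 1 0 (by simp) (caseA _ ?_ (smooth_lin p 0 1 1 0 (by simp) h))
      simpa [lin] using h3
  · exact caseA p h1 h

end Pool.Agent.TH157.Cub
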