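import Mathlib
import Pool.Agent.TH157.Cub.Defs
import Pool.Agent.TH157.Cub.Lin

set_option autoImplicit false

namespace Pool.Agent.TH157.Cub

open MvPolynomial

/-- The chain rule. -/
theorem pderiv_bind {k : Type*} [Field k] (L : Fin 4 → MvPolynomial (Fin 4) k)
    (F : MvPolynomial (Fin 4) k) (j : Fin 4) :
    pderiv j (bind₁ L F) = ∑ i, pderiv j (L i) * bind₁ L (pderiv i F) := by
  classical
  induction F using MvPolynomial.induction_on with
  | C a => simp
  | add p q hp hq =>
    simp only [map_add, hp, hq, mul_add, Finset.sum_add_distrib]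
  | mul_X p n hp =>
    have e : ∀ i, bind₁ L (pderiv i (p * X n)) =
        bind₁ L p * (if i = n then 1 else 0) + L n * bind₁ L (pderiv i p) := by
      intro i
      rw [Derivation.leibniz, pderiv_X]
      simp only [smul_eq_mul, map_add, map_mul, bind₁_X_right]
      congr 2
      by_cases h : i = n
      · subst h
        simp
      · simp [h, Pi.single_apply, Ne.symm h]
    have e2 : ∑ i, pderiv j (L i) * bind₁ L (pderiv i (p * X n)) =
        ∑ i, (pderiv j (L i) * (bind₁ L p * (if i = n then 1 else 0)) +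
          L n * (pderiv j (L i) * bind₁ L (pderiv i p))) := by
      refine Finset.sum_congr rfl fun i _ => ?_
      rw [e]
      ring
    rw [e2, Finset.sum_add_distrib, ← Finset.mul_sum, ← hp, map_mul, bind₁_X_right,
      Derivation.leibniz]
    simp only [smul_eq_mul, mul_ite, mul_one, mul_zero, Finset.sum_ite_eq', Finset.mem_univ,
      if_true]
    ring

/-- An adapted basis. -/
theorem exists_basis {k : Type*} [Field k] (x l : Fin 4 → k) (hx : x ≠ 0) (hl : l ≠ 0)
    (hxl : ∑ i, x i * l i = 0) : ∃ T U : Matrix (Fin 4) (Fin 4) k, (∀ i, T i 0 = x i) ∧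
      (∀ j, ∑ i, T i j * l i = if j = 3 then 1 else 0) ∧ U * T = 1 ∧ T * U = 1 := by
  classical
  obtain ⟨i3, h3⟩ := Function.ne_iff.mp hl
  obtain ⟨i0, h03, h0⟩ : ∃ i0, i0 ≠ i3 ∧ x i0 ≠ 0 := by
    by_contra hcon
    push Not at hcon
    have h : ∑ i, x i * l i = x i3 * l i3 :=
      Finset.sum_eq_single i3 (fun i _ hi => by rw [hcon i hi, zero_mul]) (by simp)
    rw [hxl] at h
    apply hx
    funext i
    by_cases hi : i = i3
    · rw [hi]
      exact (mul_eq_zero.mp h.symm).resolve_right h3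
    · exact hcon i hi
  obtain ⟨σ, hσ0, hσ3⟩ : ∃ σ : Equiv.Perm (Fin 4), σ 0 = i0 ∧ σ 3 = i3 := by
    have : ∀ i0 i3 : Fin 4, i0 ≠ i3 → ∃ σ : Equiv.Perm (Fin 4), σ 0 = i0 ∧ σ 3 = i3 := by
      decide
    exact this i0 i3 h03
  have hx0 : x (σ 0) ≠ 0 := by rw [hσ0]; exact h0
  have hl3 : l (σ 3) ≠ 0 := by rw [hσ3]; exact h3
  have hsum : x (σ 0) * l (σ 0) + x (σ 1) * l (σ 1) + x (σ 2) * l (σ 2) +
      x (σ 3) * l (σ 3) = 0 := by
    rw [← hxl, ← Equiv.sum_comp σ, Fin.sum_univ_four]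
  obtain ⟨T', hT'⟩ : ∃ T' : Matrix (Fin 4) (Fin 4) k, T' = !![x (σ 0), 0, 0, 0;
    x (σ 1), 1, 0, 0; x (σ 2), 0, 1, 0;
    x (σ 3), -l (σ 1) / l (σ 3), -l (σ 2) / l (σ 3), 1 / l (σ 3)] := ⟨_, rfl⟩
  obtain ⟨U', hU'⟩ : ∃ U' : Matrix (Fin 4) (Fin 4) k, U' = !![1 / x (σ 0), 0, 0, 0;
    -x (σ 1) / x (σ 0), 1, 0, 0; -x (σ 2) / x (σ 0), 0, 1, 0;
    l (σ 0), l (σ 1), l (σ 2), l (σ 3)] := ⟨_, rfl⟩
  have hUT : U' * T' = 1 := by
    ext i j
    rw [Matrix.mul_apply, Fin.sum_univ_four]
    fin_cases i <;> fin_cases j <;> simp [hT', hU'] <;> field_simp <;>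
      first
        | ring1
        | linear_combination hsum
  have hUT2 : U'.submatrix id σ.symm * T'.submatrix σ.symm id = 1 := by
    rw [Matrix.submatrix_mul_equiv, hUT]
    simp
  refine ⟨T'.submatrix σ.symm id, U'.submatrix id σ.symm, ?_, ?_, hUT2, ?_⟩
  · intro i
    obtain ⟨m, rfl⟩ := σ.surjective i
    rw [Matrix.submatrix_apply, Equiv.symm_apply_apply, hT']
    fin_cases m <;> simp
  · intro j
    rw [← Equiv.sum_comp σ, Fin.sum_univ_four]
    simp only [Matrix.submatrix_apply, Equiv.symm_apply_apply, id]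
    fin_cases j <;> simp [hT'] <;> field_simp <;>
      first
        | ring1
        | linear_combination hsum
  · exact mul_eq_one_comm.mp hUT2

section Pderiv

variable {k : Type*} [Field k] (p : Par k) (g0 g1 g2 g3 : k)

/-- The general form, with the terms to be shown to vanish. -/
noncomputable def gen : MvPolynomial (Fin 4) k :=
  C g0 * X 0 ^ 3 + X 0 ^ 2 * (C g1 * X 1 + C g2 * X 2 + C g3 * X 3) +
    cub (p.map C) (X 0) (X 1) (X 2) (X 3)

theorem pd0 : pderiv 0 (gen p g0 g1 g2 g3) =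
    3 * C g0 * X 0 ^ 2 + 2 * X 0 * (C g1 * X 1 + C g2 * X 2 + C g3 * X 3) +
    (2 * X 0 * X 3 + (C p.q1 * X 1 ^ 2 + C p.q2 * X 1 * X 2 + C p.q3 * X 2 ^ 2) +
      X 3 * (C p.m1 * X 1 + C p.m2 * X 2 + C p.m3 * X 3)) := by
  simp only [gen, cub, Par.map, map_add, Derivation.leibniz, Derivation.leibniz_pow, pderiv_X,
    pderiv_C, smul_eq_mul, nsmul_eq_mul]
  simp
  ring

theorem pd1 : pderiv 1 (gen p g0 g1 g2 g3) =
    X 0 ^ 2 * C g1 +
    (X 0 * (2 * C p.q1 * X 1 + C p.q2 * X 2) + X 0 * X 3 * C p.m1 +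
      (3 * C p.c1 * X 1 ^ 2 + 2 * C p.c2 * X 1 * X 2 + C p.c3 * X 2 ^ 2) +
      X 3 * (2 * C p.e1 * X 1 + C p.e2 * X 2) + X 3 ^ 2 * C p.e4) := by
  simp only [gen, cub, Par.map, map_add, Derivation.leibniz, Derivation.leibniz_pow, pderiv_X,
    pderiv_C, smul_eq_mul, nsmul_eq_mul]
  simp
  ring

theorem pd2 : pderiv 2 (gen p g0 g1 g2 g3) =
    X 0 ^ 2 * C g2 +
    (X 0 * (C p.q2 * X 1 + 2 * C p.q3 * X 2) + X 0 * X 3 * C p.m2 +
      (C p.c2 * X 1 ^ 2 + 2 * C p.c3 * X 1 * X 2 + 3 * C p.c4 * X 2 ^ 2) +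
      X 3 * (C p.e2 * X 1 + 2 * C p.e3 * X 2) + X 3 ^ 2 * C p.e5) := by
  simp only [gen, cub, Par.map, map_add, Derivation.leibniz, Derivation.leibniz_pow, pderiv_X,
    pderiv_C, smul_eq_mul, nsmul_eq_mul]
  simp
  ring

theorem pd3 : pderiv 3 (gen p g0 g1 g2 g3) =
    X 0 ^ 2 * C g3 +
    (X 0 ^ 2 + X 0 * (C p.m1 * X 1 + C p.m2 * X 2 + 2 * C p.m3 * X 3) +
      (C p.e1 * X 1 ^ 2 + C p.e2 * X 1 * X 2 + C p.e3 * X 2 ^ 2) +
      2 * X 3 * (C p.e4 * X 1 + C p.e5 * X 2) + 3 * C p.e6 * X 3 ^ 2) := by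
  simp only [gen, cub, Par.map, map_add, Derivation.leibniz, Derivation.leibniz_pow, pderiv_X,
    pderiv_C, smul_eq_mul, nsmul_eq_mul]
  simp
  ring

end Pderiv

theorem aeval_bind_lin {k : Type*} [Field k] (T : Matrix (Fin 4) (Fin 4) k)
    (F : MvPolynomial (Fin 4) k) {S : Type*} [CommRing S] [Algebra k S] (v : Fin 4 → S) :
    aeval v (bind₁ (fun i => ∑ j, C (T i j) * X j) F) =
      aeval (fun i => ∑ j, algebraMap k S (T i j) * v j) F := by
  rw [aeval_bind₁]
  congr 2
  funext i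
  simp [map_sum]

theorem aeval_pderiv_bind_lin {k : Type*} [Field k] (T : Matrix (Fin 4) (Fin 4) k)
    (F : MvPolynomial (Fin 4) k) {S : Type*} [CommRing S] [Algebra k S] (v : Fin 4 → S)
    (j : Fin 4) :
    aeval v (pderiv j (bind₁ (fun i => ∑ j, C (T i j) * X j) F)) =
      ∑ i, algebraMap k S (T i j) *
        aeval (fun i => ∑ j, algebraMap k S (T i j) * v j) (pderiv i F) := by
  classical
  rw [pderiv_bind, map_sum]
  refine Finset.sum_congr rfl fun i _ => ?_
  rw [map_mul, aeval_bind_lin]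
  congr 1
  rw [map_sum, Finset.sum_eq_single j]
  · simp [Derivation.leibniz]
  · intro m _ hm
    simp [Derivation.leibniz, pderiv_X, Pi.single_apply, hm.symm]
  · simp

theorem aeval_cub {k : Type*} [Field k] (p : Par k) {S : Type*} [CommRing S] [Algebra k S]
    (v : Fin 4 → S) :
    aeval v (cub (p.map C) (X 0) (X 1) (X 2) (X 3) : MvPolynomial (Fin 4) k) =
      cub (p.map (algebraMap k S)) (v 0) (v 1) (v 2) (v 3) := by
  simp [cub, Par.map]

theorem mat_cancel {k : Type*} [Field k] {S : Type*} [CommRing S] [Algebra k S]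
    (A B : Matrix (Fin 4) (Fin 4) k) (h : A * B = 1) (v : Fin 4 → S) (m : Fin 4) :
    ∑ i, algebraMap k S (A m i) * ∑ j, algebraMap k S (B i j) * v j = v m := by
  simp only [Finset.mul_sum]
  rw [Finset.sum_comm]
  have h1 : ∀ j, ∑ i, algebraMap k S (A m i) * (algebraMap k S (B i j) * v j) =
      algebraMap k S ((A * B) m j) * v j := by
    intro j
    rw [Matrix.mul_apply, map_sum, Finset.sum_mul]
    refine Finset.sum_congr rfl fun i _ => ?_
    rw [map_mul, mul_assoc]
  simp only [h1, h, Matrix.one_apply]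
  rw [Finset.sum_eq_single m]
  · simp
  · intro j _ hj
    simp [hj.symm]
  · simp

theorem all_points {k : Type*} [Field k] [Finite k] (F : MvPolynomial (Fin 4) k)
    (hF : IsSmoothCubicSurface F) (x : Fin 4 → k) (hx : x ≠ 0) (hxF : eval x F = 0) :
    ∃ e φ, IsRationalCurve F e φ ∧ PassesThrough φ x := by
  classical
  obtain ⟨hF3, hFs⟩ := hF
  have hxF' : aeval x F = 0 := by rw [← hxF, aeval_def]; rfl
  obtain ⟨l, hl⟩ : ∃ l : Fin 4 → k, l = fun i => aeval x (pderiv i F) := ⟨_, rfl⟩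
  have hal : ∀ G : MvPolynomial (Fin 4) k,
      aeval (fun i => algebraMap k (AlgebraicClosure k) (x i)) G =
        algebraMap k (AlgebraicClosure k) (aeval x G) := by
    intro G
    exact aeval_algebraMap_apply _ x G
  have hl0 : l ≠ 0 := by
    obtain ⟨i, hi⟩ := hFs (fun i => algebraMap k _ (x i)) (by
      intro h
      apply hx
      funext i
      have := congrFun h i
      simpa using this) (by rw [hal, hxF', map_zero])
    intro h
    apply hi
    rw [hal]
    have := congrFun h i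
    rw [hl] at this
    simp only at this
    rw [this]
    simp
  have hxl : ∑ i, x i * l i = 0 := by
    have := congrArg (aeval x) hF3.sum_X_mul_pderiv
    rw [map_sum, map_nsmul, hxF', smul_zero] at this
    rw [← this, hl]
    refine Finset.sum_congr rfl fun i _ => ?_
    rw [map_mul, aeval_X]
  obtain ⟨T, U, hT0, hTl, hUT, hTU⟩ := exists_basis x l hx hl0 hxl
  obtain ⟨G, hGdef⟩ : ∃ G, G = bind₁ (fun i => ∑ j, C (T i j) * X j) F := ⟨_, rfl⟩
  have hG : G.IsHomogeneous 3 := by
    rw [hGdef]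
    have := hF3.aeval (fun i => ∑ j, C (T i j) * X j : Fin 4 → MvPolynomial (Fin 4) k)
      (n := 1) (fun i => by
        refine IsHomogeneous.sum _ _ _ fun j _ => ?_
        have := (isHomogeneous_C (Fin 4) (T i j)).mul (isHomogeneous_X k j)
        rwa [zero_add] at this)
    rwa [one_mul] at this
  obtain ⟨g0, g1, g2, g3, p, hp⟩ := cubic_explicit G hG
  have hp' : G = gen p g0 g1 g2 g3 := hp
  obtain ⟨e0, he0⟩ : ∃ e0 : Fin 4 → k, e0 = ![1, 0, 0, 0] := ⟨_, rfl⟩
  have hTe0 : (fun i => ∑ j, algebraMap k k (T i j) * e0 j) = x := by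
    funext i
    rw [he0, Fin.sum_univ_four]
    simp [hT0]
  have hd : ∀ j, aeval e0 (pderiv j G) = if j = 3 then 1 else 0 := by
    intro j
    rw [hGdef, aeval_pderiv_bind_lin, hTe0, ← hTl j, hl]
    rfl
  have hg0 : g0 = 0 := by
    have h1 : aeval e0 G = 0 := by
      rw [hGdef, aeval_bind_lin, hTe0, hxF']
    rw [hp', gen, map_add, aeval_cub, he0] at h1
    simpa [cub] using h1
  have hg1 : g1 = 0 := by
    have h1 := hd 1
    rw [hp', pd1, he0] at h1
    simpa using h1
  have hg2 : g2 = 0 := by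
    have h1 := hd 2
    rw [hp', pd2, he0] at h1
    simpa using h1
  have hg3 : g3 = 0 := by
    have h1 := hd 3
    rw [hp', pd3, he0] at h1
    simpa using h1
  rw [hg0, hg1, hg2, hg3] at hp'
  have hcub : G = cub (p.map C) (X 0) (X 1) (X 2) (X 3) := by
    rw [hp', gen]
    simp
  have hsm : SmoothPlane p := by
    rintro w y z hyz p' hpp hc ⟨k0, k1, k2, k3⟩
    obtain ⟨v, hv⟩ : ∃ v : Fin 4 → AlgebraicClosure k, v = ![w, y, z, 0] := ⟨_, rfl⟩
    obtain ⟨v', hv'⟩ : ∃ v' : Fin 4 → AlgebraicClosure k,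
      v' = fun i => ∑ j, algebraMap k (AlgebraicClosure k) (T i j) * v j := ⟨_, rfl⟩
    have hinv : ∀ m, ∑ i, algebraMap k (AlgebraicClosure k) (U m i) * v' i = v m := by
      intro m
      rw [hv']
      exact mat_cancel U T hUT v m
    have hv'0 : v' ≠ 0 := by
      intro h
      apply hyz
      have h1 := hinv 1
      have h2 := hinv 2
      rw [h, hv] at h1 h2
      simp at h1 h2
      exact ⟨h1.symm, h2.symm⟩
    have hv'F : aeval v' F = 0 := by
      rw [hv', ← aeval_bind_lin, ← hGdef, hcub, aeval_cub, ← hpp, hv]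
      exact hc
    obtain ⟨i, hi⟩ := hFs v' hv'0 hv'F
    apply hi
    have hall : ∀ j, aeval v (pderiv j G) = 0 := by
      intro j
      rw [hpp] at k0 k1 k2 k3
      rw [hp', hv]
      fin_cases j
      · show aeval ![w, y, z, 0] (pderiv 0 _) = _
        rw [pd0]
        simpa [Par.map] using k0
      · show aeval ![w, y, z, 0] (pderiv 1 _) = _
        rw [pd1]
        simpa [Par.map] using k1
      · show aeval ![w, y, z, 0] (pderiv 2 _) = _
        rw [pd2]
        simpa [Par.map] using k2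
      · show aeval ![w, y, z, 0] (pderiv 3 _) = _
        rw [pd3]
        simpa [Par.map] using k3
    have hall' : ∀ j, ∑ i, algebraMap k (AlgebraicClosure k) (T i j) *
        aeval v' (pderiv i F) = 0 := by
      intro j
      rw [← hall j, hGdef, aeval_pderiv_bind_lin, hv']
    have hfin := mat_cancel (S := AlgebraicClosure k) U.transpose T.transpose
      (by rw [← Matrix.transpose_mul, hTU, Matrix.transpose_one])
      (fun i => aeval v' (pderiv i F)) i
    rw [← hfin]
    refine Finset.sum_eq_zero fun j _ => ?_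
    have := hall' j
    simp only [Matrix.transpose_apply]
    rw [this, mul_zero]
  obtain ⟨a0, a1, a2, a3, s, hS, hne, hs1, hs2, hs3, hs0⟩ := sol_of_smooth p hsm
  obtain ⟨b, hb⟩ : ∃ b : Fin 4 → Polynomial k, b = ![a0, a1, a2, a3] := ⟨_, rfl⟩
  refine exists_curve F hF3 x (fun i => ∑ j, algebraMap k (Polynomial k) (T i j) * b j) ?_ s
    (Polynomial.aeval s a0) hs0 ?_ hx ?_
  · rw [← aeval_bind_lin, ← hGdef, hcub, aeval_cub, hb]
    exact hS
  · intro i
    rw [map_sum, Fin.sum_univ_four, hb]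
    simp [hs1, hs2, hs3, hT0, mul_comm]
  · by_contra hcon
    push Not at hcon
    obtain ⟨i0, hi0⟩ := Function.ne_iff.mp hx
    have hz : ∀ m, m ≠ 0 → b m = 0 := by
      intro m hm
      have h1 := mat_cancel U T hUT b m
      have h2 : Polynomial.C (x i0) * b m = 0 := by
        rw [← h1, Finset.mul_sum]
        have h3 : ∀ i, Polynomial.C (x i0) * (algebraMap k (Polynomial k) (U m i) *
            ∑ j, algebraMap k (Polynomial k) (T i j) * b j) =
            algebraMap k (Polynomial k) (U m i * T i 0) *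
              ∑ j, algebraMap k (Polynomial k) (T i0 j) * b j := by
          intro i
          have h4 := hcon i0 i
          rw [map_mul, hT0 i]
          have h5 : algebraMap k (Polynomial k) (x i) = Polynomial.C (x i) := rfl
          rw [h5]
          linear_combination algebraMap k (Polynomial k) (U m i) * h4
        simp only [h3]
        rw [← Finset.sum_mul, ← map_sum]
        have h6 : ∑ i, U m i * T i 0 = 0 := by
          rw [← Matrix.mul_apply, hUT, Matrix.one_apply, if_neg hm]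
        rw [h6, map_zero, zero_mul]
      exact (mul_eq_zero.mp h2).resolve_left (fun h => hi0 (Polynomial.C_eq_zero.mp h))
    have z1 := hz 1 (by decide)
    have z2 := hz 2 (by decide)
    have z3 := hz 3 (by decide)
    rw [hb] at z1 z2 z3
    simp at z1 z2 z3
    rcases hne with h | h | h
    · exact h z1
    · exact h z2
    · exact h z3

end Pool.Agent.TH157.Cub
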